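import Pool.Agent.Run7.h690.CL.Typ

set_option autoImplicit false

/-!
# Continuous functions on the space of types, and d-definable sets
-/

namespace Pool.Agent.Run7.h690.CL

open Set Topology

variable {L : Sig} {M : Type} [MetricSpace M] [Str L M] {A : Set M} {n : ℕ}

/-! ## Stone-Weierstrass -/

/-- a connective from a continuous function -/
noncomputable def clampCon {k : ℕ} (h : (Fin k → ℝ) → ℝ) (hc : Continuous h) : Con k where
  u x := max 0 (min 1 (h x))
  cont := continuous_const.max (continuous_const.min hc)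
  mem x := ⟨le_max_left _ _, max_le zero_le_one (min_le_left _ _)⟩

/-- the functions which are continuous functions of finitely many formulas -/
def fns (L : Sig) {M : Type} [MetricSpace M] [Str L M] (A : Set M) (n : ℕ) :
    Set C(TS L A n, ℝ) :=
  {g | ∃ (k : ℕ) (h : (Fin k → ℝ) → ℝ) (_ : Continuous h) (φs : Fin k → Fm L A n),
    ∀ z, g z = h fun j => z.1 (φs j)}

theorem fns_bin {g g' : C(TS L A n, ℝ)} (hg : g ∈ fns L A n) (hg' : g' ∈ fns L A n)
    (b : ℝ → ℝ → ℝ) (hb : Continuous fun x : ℝ × ℝ => b x.1 x.2) (f : C(TS L A n, ℝ))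
    (hf : ∀ z, f z = b (g z) (g' z)) : f ∈ fns L A n := by
  obtain ⟨k, h, hc, φs, h1⟩ := hg
  obtain ⟨k', h', hc', φs', h1'⟩ := hg'
  refine ⟨k + k', fun x => b (h fun j => x (Fin.castAdd k' j)) (h' fun j => x (Fin.natAdd k j)),
    ?_, Fin.append φs φs', fun z => ?_⟩
  · exact hb.comp ((hc.comp (continuous_pi fun j => continuous_apply _)).prodMk
      (hc'.comp (continuous_pi fun j => continuous_apply _)))
  · rw [hf, h1, h1']
    simp only [Fin.append_left, Fin.append_right]

theorem exists_formula (f : TS L A n → ℝ) (hf : Continuous f) (h01 : ∀ z, f z ∈ Icc (0 : ℝ) 1)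
    (ε : ℝ) (hε : 0 < ε) : ∃ φ : Fm L A n, ∀ z : TS L A n, |f z - z.1 φ| ≤ ε := by
  have key : closure (fns L A n) = ⊤ := by
    refine ContinuousMap.sublattice_closure_eq_top (fns L A n) ⟨ContinuousMap.const _ 0, 0,
      fun _ => 0, continuous_const, Fin.elim0, fun _ => rfl⟩ ?_ ?_ ?_
    · intro g hg g' hg'
      exact fns_bin hg hg' (fun x y => min x y) (continuous_fst.min continuous_snd) _
        fun _ => rfl
    · intro g hg g' hg'
      exact fns_bin hg hg' (fun x y => max x y) (continuous_fst.max continuous_snd) _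
        fun _ => rfl
    · intro v x y
      by_cases hxy : x = y
      · subst hxy
        exact ⟨ContinuousMap.const _ (v x), ⟨0, fun _ => v x, continuous_const, Fin.elim0,
          fun _ => rfl⟩, rfl, rfl⟩
      · have h1 : ∃ φ, x.1 φ ≠ y.1 φ := by
          by_contra h
          push Not at h
          exact hxy (Subtype.ext (funext h))
        obtain ⟨φ, hφ⟩ := h1
        have hd : y.1 φ - x.1 φ ≠ 0 := sub_ne_zero.2 (Ne.symm hφ)
        refine ⟨⟨fun z => v x + (z.1 φ - x.1 φ) * ((v y - v x) / (y.1 φ - x.1 φ)),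
          continuous_const.add (((TS.continuous_val φ).sub continuous_const).mul
            continuous_const)⟩, ⟨1, fun t => v x + (t 0 - x.1 φ) *
              ((v y - v x) / (y.1 φ - x.1 φ)), ?_, fun _ => φ, fun _ => rfl⟩, ?_, ?_⟩
        · exact continuous_const.add (((continuous_apply 0).sub continuous_const).mul
            continuous_const)
        · simp
        · change v x + (y.1 φ - x.1 φ) * ((v y - v x) / (y.1 φ - x.1 φ)) = v y
          field_simp
          ring
  have h1 : (⟨f, hf⟩ : C(TS L A n, ℝ)) ∈ closure (fns L A n) := by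
    rw [key]
    trivial
  obtain ⟨g, ⟨k, h, hc, φs, hg⟩, hd⟩ := Metric.mem_closure_iff.1 h1 ε hε
  refine ⟨.con (clampCon h hc) φs, fun z => ?_⟩
  rw [TS.con]
  change |f z - max 0 (min 1 (h fun j => z.1 (φs j)))| ≤ ε
  rw [← hg]
  have h2 : |f z - g z| < ε := by
    have h3 := ContinuousMap.dist_apply_le_dist (f := (⟨f, hf⟩ : C(TS L A n, ℝ))) (g := g) z
    rw [Real.dist_eq] at h3
    exact h3.trans_lt hd
  obtain ⟨h3, h4⟩ := h01 z
  rw [abs_lt] at h2
  rw [abs_le]
  rcases le_total (g z) 0 with h5 | h5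
  · rw [min_eq_right (h5.trans zero_le_one), max_eq_left h5]
    constructor <;> linarith
  · rcases le_total 1 (g z) with h6 | h6
    · rw [min_eq_left h6, max_eq_right zero_le_one]
      constructor <;> linarith
    · rw [min_eq_right h6, max_eq_right h5]
      constructor <;> linarith

/-! ## Definable sets -/

theorem continuous_pt : Continuous (pt L A : (Fin n → M) → TS L A n) :=
  Continuous.subtype_mk (continuous_pi fun φ => (Fm.uc (fun a : A => (a : M)) φ).continuous) _

theorem exists_zero (f : TS L A n → ℝ) (hf : Continuous f) (h0 : ∀ z, 0 ≤ f z)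
    (hM : ∀ r x, f x < r → ∃ y, f y = 0 ∧ Rl r x y) (x : Fin n → M) (δ : ℝ) (hδ : 0 < δ) :
    ∃ y : Fin n → M, f (pt L A y) = 0 ∧ dist x y ≤ f (pt L A x) + δ := by
  have := Str.complete (L := L) (M := M)
  have step : ∀ (x : Fin n → M) (e : ℝ), 0 < e → ∃ y : Fin n → M,
      dist x y ≤ f (pt L A x) + e ∧ f (pt L A y) ≤ e := by
    intro x e he
    obtain ⟨p, hp, hR⟩ := hM (f (pt L A x) + e) (pt L A x) (by linarith)
    obtain ⟨y, hy, hxy⟩ := near hR {z | f z < e} (isOpen_lt hf continuous_const) (by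
      change f p < e
      rw [hp]
      exact he)
    exact ⟨y, hxy.le, le_of_lt hy⟩
  choose g hg1 hg2 using step
  let e : ℝ := δ / 5
  have he : 0 < e := by positivity
  have hpos : ∀ k : ℕ, 0 < e * (1 / 2) ^ k := fun k => by positivity
  let z : ℕ → (Fin n → M) := fun k => Nat.rec (g x e he)
    (fun k y => g y (e * (1 / 2) ^ (k + 1)) (hpos (k + 1))) k
  have hz0 : dist x (z 0) ≤ f (pt L A x) + e := hg1 x e he
  have hzf : ∀ k, f (pt L A (z k)) ≤ e * (1 / 2) ^ k := by
    intro k
    cases k with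
    | zero =>
      rw [pow_zero, mul_one]
      exact hg2 x e he
    | succ k => exact hg2 _ _ _
  have hzd : ∀ k, dist (z k) (z (k + 1)) ≤ (2 * e) * (1 / 2) ^ k := by
    intro k
    have h1 : dist (z k) (z (k + 1)) ≤ f (pt L A (z k)) + e * (1 / 2) ^ (k + 1) := hg1 _ _ _
    have h2 := hzf k
    have h3 : e * (1 / 2) ^ (k + 1) ≤ e * (1 / 2) ^ k := by
      rw [pow_succ]
      have := hpos k
      nlinarith
    nlinarith
  have hcs := cauchySeq_of_le_geometric (1 / 2) (2 * e) (by norm_num) hzd
  obtain ⟨w, hw⟩ := cauchySeq_tendsto_of_complete hcs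
  refine ⟨w, ?_, ?_⟩
  · have h1 : Filter.Tendsto (fun k => f (pt L A (z k))) Filter.atTop (𝓝 (f (pt L A w))) :=
      ((hf.comp continuous_pt).tendsto w).comp hw
    have h2 : Filter.Tendsto (fun k : ℕ => e * (1 / 2 : ℝ) ^ k) Filter.atTop (𝓝 (e * 0)) :=
      (tendsto_pow_atTop_nhds_zero_of_lt_one (by norm_num) (by norm_num)).const_mul e
    rw [mul_zero] at h2
    exact le_antisymm (le_of_tendsto_of_tendsto' h1 h2 hzf) (h0 _)
  · have h1 := dist_le_of_le_geometric_of_tendsto₀ (1 / 2) (2 * e) (by norm_num) hzd hw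
    have h2 := dist_triangle x (z 0) w
    have h3 : (2 * e) / (1 - 1 / 2) = 4 * e := by ring
    rw [h3] at h1
    have h4 : δ = 5 * e := by
      simp only [e]
      ring
    linarith

/-- **A continuous function with the properties of a distance gives a d-definable set** -/
theorem dDef_of_fun [Nonempty (Fin n → M)] (f : TS L A n → ℝ) (hf : Continuous f)
    (h01 : ∀ z, f z ∈ Icc (0 : ℝ) 1) (hL : ∀ r x y, 0 < r → Rl r x y → f x ≤ f y + r)
    (hM : ∀ r x, f x < r → ∃ y, f y = 0 ∧ Rl r x y) :
    DDef L A {x : Fin n → M | f (pt L A x) = 0} := by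
  have hne : {x : Fin n → M | f (pt L A x) = 0}.Nonempty := by
    obtain ⟨y, hy, -⟩ := exists_zero f hf (fun z => (h01 z).1) hM
      (Classical.arbitrary (Fin n → M)) 1 one_pos
    exact ⟨y, hy⟩
  have hd : ∀ x : Fin n → M, Metric.infDist x {x : Fin n → M | f (pt L A x) = 0} =
      f (pt L A x) := by
    intro x
    refine le_antisymm ?_ ?_
    · refine le_of_forall_pos_le_add fun δ hδ => ?_
      obtain ⟨y, hy, hxy⟩ := exists_zero f hf (fun z => (h01 z).1) hM x δ hδ
      exact (Metric.infDist_le_dist_of_mem (s := {x : Fin n → M | f (pt L A x) = 0}) hy).trans hxy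
    · rw [Metric.le_infDist hne]
      intro y hy
      refine le_of_forall_pos_le_add fun δ hδ => ?_
      have h1 := hL (dist x y + δ) (pt L A x) (pt L A y)
        (by have := dist_nonneg (x := x) (y := y); linarith)
        ⟨dist x y, by linarith, pt_mem_Cs x y⟩
      have h2 : f (pt L A y) = 0 := hy
      rw [h2, zero_add] at h1
      exact h1
  refine ⟨isClosed_eq (hf.comp continuous_pt) continuous_const, fun ε hε => ?_⟩
  obtain ⟨φ, hφ⟩ := exists_formula f hf h01 ε hε
  refine ⟨φ, fun x => ?_⟩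
  rw [hd]
  exact hφ (pt L A x)

end Pool.Agent.Run7.h690.CL
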