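import Pool.Agent.Run7.h690.CL.Typ

set_option autoImplicit false

/-!
# Elementary extensions and the space of types
-/

namespace Pool.Agent.Run7.h690.CL

open Set Topology

variable {L : Sig} {M : Type} [MetricSpace M] [Str L M] {A : Set M} {n : ℕ}

section ext

variable {N : Type} [MetricSpace N] [Str L N] {j : M → N}

/-- tuples of an elementary extension are approximated by tuples of `M` -/
theorem approx (hj : Elem L j) {m k : ℕ} (b : Fin m → N) (φs : Fin k → Fm L M m)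
    (d : Fin k → ℝ) : ∃ x : Fin m → M, ∀ i,
      |(φs i).val id x - (φs i).val j b| * |d i| < 1 := by
  let χ : Fm L M (0 + m) := .con (boxCon (fun i => (φs i).val j b) d)
    fun i => (φs i).rename (Fin.natAdd 0)
  have hχ : ∀ {K : Type} [MetricSpace K] [Str L K] (c : M → K) (v : Fin 0 → K) (y : Fin m → K),
      χ.val c (Fin.append v y) =
        (boxCon (fun i => (φs i).val j b) d).u fun i => (φs i).val c y := by
    intro K _ _ c v y
    change (boxCon (fun i => (φs i).val j b) d).u (fun i =>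
      ((φs i).rename (Fin.natAdd 0)).val c (Fin.append v y)) = _
    congr 1
    funext i
    rw [Fm.val_rename]
    simp only [Fin.append_right]
  have h1 : (Fm.infs m χ).val j (fun i => j ((Fin.elim0 : Fin 0 → M) i)) < 1 := by
    rw [Fm.infs_lt]
    refine ⟨b, ?_⟩
    rw [hχ, boxCon_self]
    exact one_pos
  rw [hj 0 (Fm.infs m χ) Fin.elim0, Fm.infs_lt] at h1
  obtain ⟨x, hx⟩ := h1
  rw [hχ] at hx
  exact ⟨x, fun i => boxCon_lt hx i⟩

/-- the type of a tuple of an elementary extension is in the closure of the types of `M` -/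
theorem tp_mem_closure (hj : Elem L j) (b : Fin n → N) :
    tp L j A b ∈ closure (range fun x : Fin n → M => ev L A x) := by
  rw [mem_closure_iff]
  intro O hO hb
  obtain ⟨I, u, h1, h2⟩ := isOpen_pi_iff.1 hO _ hb
  have h3 : ∀ a : I, ∃ δ : ℝ, 0 < δ ∧ Metric.ball (tp L j A b a.1) δ ⊆ u a.1 := fun a =>
    Metric.isOpen_iff.1 (h1 a.1 a.2).1 _ (h1 a.1 a.2).2
  choose δ hδ hδu using h3
  let e := I.equivFin
  obtain ⟨x, hx⟩ := approx hj b (fun i => (e.symm i).1.mapC (fun a : A => (a : M)))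
    fun i => (δ (e.symm i))⁻¹
  refine ⟨ev L A x, h2 fun a ha => ?_, ⟨x, rfl⟩⟩
  have h4 := hx (e ⟨a, ha⟩)
  simp only [Equiv.symm_apply_apply, Fm.val_mapC] at h4
  have h5 := hδ ⟨a, ha⟩
  refine hδu ⟨a, ha⟩ ?_
  rw [Metric.mem_ball, Real.dist_eq]
  rw [abs_of_pos (inv_pos.2 h5), ← div_eq_mul_inv, div_lt_one h5] at h4
  exact h4

/-- the connective `min 1 ‖t‖` -/
noncomputable def normCon (n : ℕ) : Con n where
  u t := min 1 ‖t‖
  cont := continuous_const.min continuous_norm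
  mem _ := ⟨le_min zero_le_one (norm_nonneg _), min_le_left _ _⟩

/-- the distance of two tuples as a formula -/
noncomputable def dd (L : Sig) (C : Type) (n : ℕ) : Fm L C (n + n) :=
  .con (normCon n) fun i => .dst (.var (Fin.castAdd n i)) (.var (Fin.natAdd n i))

theorem dd_val {C K : Type} [MetricSpace K] [Str L K] (c : C → K) (x : Fin (n + n) → K) :
    (dd L C n).val c x = dist (fun i => x (Fin.castAdd n i)) fun i => x (Fin.natAdd n i) := by
  change min 1 ‖fun i => dist (x (Fin.castAdd n i)) (x (Fin.natAdd n i))‖ = _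
  rw [norm_dist_tup (fun i => x (Fin.castAdd n i)) fun i => x (Fin.natAdd n i)]
  exact min_eq_right (dist_tup_le L _ _)

theorem tp_mem_Cs (hj : Elem L j) (b c : Fin n → N) :
    ((⟨tp L j A b, tp_mem_closure hj b⟩, ⟨tp L j A c, tp_mem_closure hj c⟩, dist b c) :
      TS L A n × TS L A n × ℝ) ∈ Cs L A n := by
  rw [Cs, mem_closure_iff_nhds]
  intro t ht
  obtain ⟨U, hU, t', ht', hUV⟩ := mem_nhds_prod_iff.1 ht
  obtain ⟨V, hV, W, hW, hVW⟩ := mem_nhds_prod_iff.1 ht'
  obtain ⟨U', hU', hU'o, hxU⟩ := mem_nhds_iff.1 hU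
  obtain ⟨V', hV', hV'o, hzV⟩ := mem_nhds_iff.1 hV
  obtain ⟨δ, hδ, hδW⟩ := Metric.mem_nhds_iff.1 hW
  obtain ⟨θ, h1, h2⟩ := exists_nhd U' hU'o _ hxU
  obtain ⟨θ', h1', h2'⟩ := exists_nhd V' hV'o _ hzV
  obtain ⟨x, hx⟩ := approx hj (Fin.append b c)
    ![(θ.mapC (fun a : A => (a : M))).rename (Fin.castAdd n),
      (θ'.mapC (fun a : A => (a : M))).rename (Fin.natAdd n), dd L M n] ![1, 1, δ⁻¹]
  have g0 := hx 0
  have g1 := hx 1
  have g2 := hx 2
  simp only [Matrix.cons_val_zero, Matrix.cons_val_one, Matrix.cons_val, Fm.val_rename,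
    Fm.val_mapC, dd_val, Fin.append_left, Fin.append_right, abs_one, mul_one] at g0 g1 g2
  have k0 : θ.val (fun a : A => j a) b = 0 := h1
  have k1 : θ'.val (fun a : A => j a) c = 0 := h1'
  rw [k0, sub_zero] at g0
  rw [k1, sub_zero] at g1
  rw [abs_of_pos (inv_pos.2 hδ), ← div_eq_mul_inv, div_lt_one hδ] at g2
  refine ⟨_, hUV ⟨?_, hVW ⟨?_, ?_⟩⟩, ⟨(fun i => x (Fin.castAdd n i), fun i => x (Fin.natAdd n i)),
    rfl⟩⟩
  · exact hU' (h2 _ ((le_abs_self _).trans_lt g0))
  · exact hV' (h2' _ ((le_abs_self _).trans_lt g1))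
  · exact hδW (by rw [Metric.mem_ball, Real.dist_eq]; exact g2)

end ext

theorem IsType.mem {p : Fm L A n → ℝ} (h : IsType A p) :
    p ∈ closure (range fun x : Fin n → M => ev L A x) := by
  obtain ⟨N, _, _, j, hj, b, rfl⟩ := h
  exact tp_mem_closure hj b

theorem DistLt.rl {r : ℝ} {p q : TS L A n} (h : DistLt A r p.1 q.1) : Rl r p q := by
  obtain ⟨N, _, _, j, hj, b, c, hb, hc, hd⟩ := h
  refine ⟨dist b c, hd, ?_⟩
  have h1 := tp_mem_Cs (A := A) hj b c
  have h2 : (⟨tp L j A b, tp_mem_closure hj b⟩ : TS L A n) = p := Subtype.ext hb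
  have h3 : (⟨tp L j A c, tp_mem_closure hj c⟩ : TS L A n) = q := Subtype.ext hc
  rwa [h2, h3] at h1

end Pool.Agent.Run7.h690.CL
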