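import Mathlib

set_option autoImplicit false

/-!
# Continuous first-order logic for metric structures

Signatures, structures, formulas, elementary extensions, types, the metric on types, d-definable
sets, stable and `ℵ₀`-stable theories, and theories with enough d-definable sets.
-/

namespace Pool.Agent.Run7.h690.CL

/-- A signature of continuous logic: function symbols and predicate symbols of finite arities with
moduli of uniform continuity. -/
structure Sig where
  /-- function symbols -/
  Fn : ℕ → Type
  /-- predicate symbols -/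
  Rl : ℕ → Type
  /-- moduli of uniform continuity of the function symbols -/
  mf : ∀ {n : ℕ}, Fn n → ℝ → ℝ
  /-- moduli of uniform continuity of the predicate symbols -/
  mr : ∀ {n : ℕ}, Rl n → ℝ → ℝ
  mf_pos : ∀ {n : ℕ} (F : Fn n) (ε : ℝ), 0 < ε → 0 < mf F ε
  mr_pos : ∀ {n : ℕ} (R : Rl n) (ε : ℝ), 0 < ε → 0 < mr R ε

/-- A metric structure: a nonempty complete metric space of diameter at most one, with functions
and `[0, 1]`-valued predicates which respect the moduli of uniform continuity. -/
class Str (L : Sig) (M : Type) [MetricSpace M] where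
  fn : ∀ {n : ℕ}, L.Fn n → (Fin n → M) → M
  rl : ∀ {n : ℕ}, L.Rl n → (Fin n → M) → ℝ
  ne : Nonempty M
  complete : CompleteSpace M
  diam : ∀ x y : M, dist x y ≤ 1
  rl_mem : ∀ {n : ℕ} (R : L.Rl n) (v : Fin n → M), rl R v ∈ Set.Icc (0 : ℝ) 1
  fn_unif : ∀ {n : ℕ} (F : L.Fn n) (ε : ℝ), 0 < ε → ∀ v w : Fin n → M,
    dist v w < L.mf F ε → dist (fn F v) (fn F w) ≤ ε
  rl_unif : ∀ {n : ℕ} (R : L.Rl n) (ε : ℝ), 0 < ε → ∀ v w : Fin n → M,
    dist v w < L.mr R ε → |rl R v - rl R w| ≤ ε

/-- terms with constants from `C` and free variables `0, …, n - 1` -/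
inductive Tm (L : Sig) (C : Type) (n : ℕ) : Type
  | var : Fin n → Tm L C n
  | cst : C → Tm L C n
  | app : ∀ {k : ℕ}, L.Fn k → (Fin k → Tm L C n) → Tm L C n

/-- connectives: the continuous functions with values in `[0, 1]` -/
structure Con (k : ℕ) where
  u : (Fin k → ℝ) → ℝ
  cont : Continuous u
  mem : ∀ x, u x ∈ Set.Icc (0 : ℝ) 1

/-- formulas with constants from `C` and free variables `0, …, n - 1`: predicates, distances,
continuous connectives, suprema and infima over the variable `n` -/
inductive Fm (L : Sig) (C : Type) : ℕ → Type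
  | rel : ∀ {n k : ℕ}, L.Rl k → (Fin k → Tm L C n) → Fm L C n
  | dst : ∀ {n : ℕ}, Tm L C n → Tm L C n → Fm L C n
  | con : ∀ {n k : ℕ}, Con k → (Fin k → Fm L C n) → Fm L C n
  | sup : ∀ {n : ℕ}, Fm L C (n + 1) → Fm L C n
  | inf : ∀ {n : ℕ}, Fm L C (n + 1) → Fm L C n

section

variable {L : Sig} {C : Type} {M : Type} [MetricSpace M] [Str L M]

/-- the value of a term; the constants are interpreted by `c` -/
def Tm.val (c : C → M) {n : ℕ} : Tm L C n → (Fin n → M) → M
  | .var i, v => v i
  | .cst a, _ => c a
  | .app F ts, v => Str.fn F fun i => (ts i).val c v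

/-- the value of a formula; the constants are interpreted by `c` -/
noncomputable def Fm.val (c : C → M) : ∀ {n : ℕ}, Fm L C n → (Fin n → M) → ℝ
  | _, .rel R ts, v => Str.rl R fun i => (ts i).val c v
  | _, .dst s t, v => dist (s.val c v) (t.val c v)
  | _, .con u φs, v => u.u fun j => (φs j).val c v
  | _, .sup φ, v => ⨆ x : M, φ.val c (Fin.snoc (α := fun _ => M) v x)
  | _, .inf φ, v => ⨅ x : M, φ.val c (Fin.snoc (α := fun _ => M) v x)

end

variable {L : Sig}

/-- `M` is a model of the theory `T`: the sentences of `T` (without constants) have the value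
zero. -/
def Model (T : Set (Fm L Empty 0)) (M : Type) [MetricSpace M] [Str L M] : Prop :=
  ∀ σ ∈ T, σ.val (M := M) Empty.elim Fin.elim0 = 0

/-- `j : M → N` is an elementary embedding: formulas with constants from `M` have the same values
in `M` and in `N`. -/
def Elem (L : Sig) {M N : Type} [MetricSpace M] [Str L M] [MetricSpace N] [Str L N] (j : M → N) :
    Prop :=
  ∀ (n : ℕ) (φ : Fm L M n) (v : Fin n → M), φ.val j (fun i => j (v i)) = φ.val id v

/-- the complete type over `A ⊆ M` of the tuple `b` of elements of an extension `j : M → N`: the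
values of all formulas with parameters from `A` -/
noncomputable def tp (L : Sig) {M N : Type} [MetricSpace N] [Str L N] (j : M → N) (A : Set M)
    {n : ℕ} (b : Fin n → N) : Fm L A n → ℝ :=
  fun φ => φ.val (fun a : A => j a) b

section

variable {M : Type} [MetricSpace M] [Str L M]

/-- `p` is a complete `n`-type over `A ⊆ M`: it is realized in an elementary extension of `M`. -/
def IsType (A : Set M) {n : ℕ} (p : Fm L A n → ℝ) : Prop :=
  ∃ (N : Type) (_ : MetricSpace N) (_ : Str L N) (j : M → N), Elem L j ∧
    ∃ b : Fin n → N, tp L j A b = p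

/-- The distance of the types `p` and `q` over `A ⊆ M` is less than `r`: they have realizations with
distance less than `r` in an elementary extension of `M`. -/
def DistLt (A : Set M) {n : ℕ} (r : ℝ) (p q : Fm L A n → ℝ) : Prop :=
  ∃ (N : Type) (_ : MetricSpace N) (_ : Str L N) (j : M → N), Elem L j ∧
    ∃ b c : Fin n → N, tp L j A b = p ∧ tp L j A c = q ∧ dist b c < r

/-- the set of the realizations of `p` in `M` -/
def Realizations (A : Set M) {n : ℕ} (p : Fm L A n → ℝ) : Set (Fin n → M) :=
  {x | tp L (id : M → M) A x = p}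

/-- `D` is d-definable in `M` over `A`: it is closed, and the distance to `D` is a definable
predicate over `A`, i.e. a uniform limit of formulas with parameters from `A`. -/
def DDef (L : Sig) {M : Type} [MetricSpace M] [Str L M] (A : Set M) {n : ℕ}
    (D : Set (Fin n → M)) : Prop :=
  IsClosed D ∧ ∀ ε : ℝ, 0 < ε → ∃ φ : Fm L A n, ∀ x : Fin n → M,
    |Metric.infDist x D - φ.val (fun a : A => (a : M)) x| ≤ ε

/-- the set of the complete `n`-types over `A` has a countable dense subset in the metric on
types -/
def Separable (L : Sig) {M : Type} [MetricSpace M] [Str L M] (A : Set M) (n : ℕ) : Prop :=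
  ∃ Q : Set (Fm L A n → ℝ), Q.Countable ∧ (∀ q ∈ Q, IsType A q) ∧
    ∀ p : Fm L A n → ℝ, IsType A p → ∀ ε : ℝ, 0 < ε → ∃ q ∈ Q, DistLt A ε p q

end

/-- The theory `T` is `ℵ₀`-stable: the spaces of types over countable sets of parameters are
separable in the metric on types. -/
def OmegaStable (T : Set (Fm L Empty 0)) : Prop :=
  ∀ (M : Type) [MetricSpace M] [Str L M], Model T M → ∀ A : Set M, A.Countable →
    ∀ n : ℕ, Separable L A n

/-- The theory `T` is stable: no formula `φ(x, y)` has the order property, i.e. there are no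
sequences `a i`, `b i` of tuples in a model of `T` and `ε > 0` with
`|φ(a i, b j) - φ(a j, b i)| ≥ ε` for all `i < j`. -/
def Stable (T : Set (Fm L Empty 0)) : Prop :=
  ∀ (M : Type) [MetricSpace M] [Str L M], Model T M → ∀ (m n : ℕ) (φ : Fm L Empty (m + n))
    (ε : ℝ), 0 < ε → ∀ (a : ℕ → Fin m → M) (b : ℕ → Fin n → M),
      ∃ i j : ℕ, i < j ∧ |φ.val (M := M) Empty.elim (Fin.append (a i) (b j)) -
        φ.val (M := M) Empty.elim (Fin.append (a j) (b i))| < ε

/-- `T` has enough d-definable sets: in every model, the set of the realizations of every complete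
type over a set of parameters is an intersection of sets that are d-definable over these
parameters. -/
def Enough (T : Set (Fm L Empty 0)) : Prop :=
  ∀ (M : Type) [MetricSpace M] [Str L M], Model T M → ∀ (A : Set M) (n : ℕ)
    (p : Fm L A n → ℝ), IsType A p →
      ∃ 𝒟 : Set (Set (Fin n → M)), (∀ D ∈ 𝒟, DDef L A D) ∧ Realizations A p = ⋂₀ 𝒟

/-! ## The pieces -/

/-- the evaluation of formulas with parameters from `A` at a tuple of `M` -/
noncomputable def ev (L : Sig) {M : Type} [MetricSpace M] [Str L M] (A : Set M) {n : ℕ}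
    (x : Fin n → M) : Fm L A n → ℝ := tp L (id : M → M) A x

/-- Piece UP (ultrapowers): every point of the closure of the evaluations is a type. -/
def S_UP : Prop :=
  ∀ (L : Sig) (M : Type) [MetricSpace M] [Str L M] (A : Set M) (n : ℕ) (z : Fm L A n → ℝ),
    z ∈ closure (Set.range fun x : Fin n → M => ev L A x) → IsType A z

/-- Piece EX (the counterexample): the theory of a discrete set with one unary predicate all of
whose values are attained infinitely often. -/
def S_EX : Prop :=
  ∃ (L : Sig) (_ : Countable (Σ n, L.Fn n)) (_ : Countable (Σ n, L.Rl n))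
    (T : Set (Fm L Empty 0)), Stable T ∧
    (∃ (M : Type) (_ : MetricSpace M) (_ : Str L M), Model T M ∧
      ∃ p : Fm L (∅ : Set M) 1 → ℝ, IsType ∅ p ∧ (Realizations ∅ p).Nonempty ∧
        (Realizations ∅ p) ≠ Set.univ) ∧
    (∀ (M : Type) [MetricSpace M] [Str L M], Model T M → ∀ D : Set (Fin 1 → M),
      DDef L (∅ : Set M) D → D = ∅ ∨ D = Set.univ) ∧
    -- complete
    (∀ (M N : Type) [MetricSpace M] [Str L M] [MetricSpace N] [Str L N], Model T M → Model T N →
      ∀ σ : Fm L Empty 0, σ.val (M := M) Empty.elim Fin.elim0 =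
        σ.val (M := N) Empty.elim Fin.elim0)

end Pool.Agent.Run7.h690.CL
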