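import Pool.Agent.Run7.h690.CL.Ext

set_option autoImplicit false

/-!
# Separable spaces of types over countable sets: small relatively open sets
-/

namespace Pool.Agent.Run7.h690.CL

open Set Topology

variable {L : Sig} {M : Type} [MetricSpace M] [Str L M] {A A₀ : Set M} {n : ℕ}

/-- the restriction of types to a smaller set of parameters -/
noncomputable def rst (h : A₀ ⊆ A) (z : TS L A n) : TS L A₀ n :=
  ⟨fun φ => z.1 (φ.mapC fun a : A₀ => (⟨a, h a.2⟩ : A)), by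
    have h1 : Continuous fun (p : Fm L A n → ℝ) (φ : Fm L A₀ n) =>
        p (φ.mapC fun a : A₀ => (⟨a, h a.2⟩ : A)) :=
      continuous_pi fun φ => continuous_apply _
    refine map_mem_closure (f := fun (p : Fm L A n → ℝ) (φ : Fm L A₀ n) =>
      p (φ.mapC fun a : A₀ => (⟨a, h a.2⟩ : A))) h1 z.2 ?_
    rintro _ ⟨x, rfl⟩
    refine ⟨x, ?_⟩
    funext φ
    exact (Fm.val_mapC (fun a : A₀ => (⟨a, h a.2⟩ : A)) (fun a : A => (a : M)) φ x).symm⟩

theorem rst_val (h : A₀ ⊆ A) (z : TS L A n) (φ : Fm L A₀ n) :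
    (rst h z).1 φ = z.1 (φ.mapC fun a : A₀ => (⟨a, h a.2⟩ : A)) := rfl

theorem continuous_rst (h : A₀ ⊆ A) : Continuous (rst h : TS L A n → TS L A₀ n) :=
  Continuous.subtype_mk (continuous_pi fun _ => TS.continuous_val _) _

theorem rst_pt (h : A₀ ⊆ A) (x : Fin n → M) : rst h (pt L A x) = pt L A₀ x := by
  apply Subtype.ext
  funext φ
  exact Fm.val_mapC (fun a : A₀ => (⟨a, h a.2⟩ : A)) (fun a : A => (a : M)) φ x

/-- near types over a smaller set of parameters extend to near types -/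
theorem lift_Cs (h : A₀ ⊆ A) {p q : TS L A₀ n} {s : ℝ} (hC : (p, q, s) ∈ Cs L A₀ n) :
    ∃ w w' : TS L A n, rst h w = p ∧ rst h w' = q ∧ (w, w', s) ∈ Cs L A n := by
  have h1 : IsClosed ((fun z : TS L A n × TS L A n × ℝ => (rst h z.1, rst h z.2.1, z.2.2)) ''
      Cs L A n) := by
    refine (Cs_compact.image ?_).isClosed
    exact ((continuous_rst h).comp continuous_fst).prodMk
      (((continuous_rst h).comp continuous_snd.fst).prodMk continuous_snd.snd)
  have h2 : Cs L A₀ n ⊆ (fun z : TS L A n × TS L A n × ℝ => (rst h z.1, rst h z.2.1, z.2.2)) ''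
      Cs L A n := by
    refine closure_minimal ?_ h1
    rintro _ ⟨x, rfl⟩
    exact ⟨(pt L A x.1, pt L A x.2, dist x.1 x.2), pt_mem_Cs _ _, by
      simp only [rst_pt]⟩
  obtain ⟨⟨w, w', s'⟩, hw, he⟩ := h2 hC
  simp only [Prod.mk.injEq] at he
  obtain ⟨h3, h4, h5⟩ := he
  subst h5
  exact ⟨w, w', h3, h4, hw⟩

/-- the nodes of the tree: the open set of the formula meets `P` -/
def Node (P : Set (TS L A n)) : Type :=
  {θ : Fm L A n // ∃ z ∈ P, z.1 θ < 1 / 2}

theorem exists_children {P : Set (TS L A n)} {ε : ℝ}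
    (hcon : ∀ V, IsOpen V → (V ∩ P).Nonempty → ∃ x ∈ V ∩ P, ∃ y ∈ V ∩ P, ¬ Rl ε x y)
    (hε : 0 < ε) (θ : Node P) : ∃ c : Bool → Node P,
      (∀ (b : Bool) (z : TS L A n), z.1 (c b).1 ≤ 1 / 2 → z.1 θ.1 ≤ 1 / 2) ∧
      ∀ z w : TS L A n, z.1 (c false).1 ≤ 1 / 2 → w.1 (c true).1 ≤ 1 / 2 → ¬ Re (ε / 2) z w := by
  have hO : IsOpen {z : TS L A n | z.1 θ.1 < 1 / 2} :=
    isOpen_lt (TS.continuous_val _) continuous_const
  obtain ⟨z0, hz0, hz0'⟩ := θ.2
  obtain ⟨x, hx, y, hy, hxy⟩ := hcon _ hO ⟨z0, hz0', hz0⟩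
  have h1 : (x, y) ∈ {z : TS L A n × TS L A n | Re (ε / 2) z.1 z.2}ᶜ := by
    rintro ⟨s, hs, hC⟩
    exact hxy ⟨s, hs.trans_lt (half_lt_self hε), hC⟩
  have h2 := (Re_closed2 (L := L) (A := A) (n := n) (ε / 2)).isOpen_compl.mem_nhds h1
  obtain ⟨U, hU, W, hW, hUW⟩ := mem_nhds_prod_iff.1 h2
  obtain ⟨U', hU', hU'o, hxU⟩ := mem_nhds_iff.1 hU
  obtain ⟨W', hW', hW'o, hyW⟩ := mem_nhds_iff.1 hW
  obtain ⟨θ0, g1, g2⟩ := exists_nhd _ (hU'o.inter hO) x ⟨hxU, hx.1⟩
  obtain ⟨θ1, g1', g2'⟩ := exists_nhd _ (hW'o.inter hO) y ⟨hyW, hy.1⟩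
  refine ⟨fun b => if b then ⟨θ1, y, hy.2, by rw [g1']; norm_num⟩ else
    ⟨θ0, x, hx.2, by rw [g1]; norm_num⟩, fun b z hz => ?_, fun z w hz hw => ?_⟩
  · cases b with
    | false => exact le_of_lt (g2 z (lt_of_le_of_lt hz (by norm_num))).2
    | true => exact le_of_lt (g2' z (lt_of_le_of_lt hz (by norm_num))).2
  · have k1 := g2 z (lt_of_le_of_lt hz (by norm_num))
    have k2 := g2' w (lt_of_le_of_lt hw (by norm_num))
    exact hUW (show (z, w) ∈ U ×ˢ W from ⟨hU' k1.1, hW' k2.1⟩)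

/-- the constant formula zero -/
noncomputable def zf (L : Sig) (C : Type) (n : ℕ) : Fm L C n :=
  .con (k := 0) (boxCon Fin.elim0 Fin.elim0) Fin.elim0

theorem zf_val (z : TS L A n) : z.1 (zf L A n) = 0 := by
  rw [zf, TS.con]
  simp [boxCon]

/-- the initial segments of a branch -/
def seg (σ : ℕ → Bool) : ℕ → List Bool
  | 0 => []
  | k + 1 => σ k :: seg σ k

theorem seg_congr {σ τ : ℕ → Bool} {k : ℕ} (h : ∀ i < k, σ i = τ i) : seg σ k = seg τ k := by
  induction k with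
  | zero => rfl
  | succ k ih =>
    change σ k :: seg σ k = τ k :: seg τ k
    rw [h k (Nat.lt_succ_self k), ih fun i hi => h i (hi.trans (Nat.lt_succ_self k))]

/-- **If the spaces of types over countable sets are separable, then nonempty closed sets of types
have nonempty relatively open subsets of small diameter** -/
theorem scat (hUP : S_UP) (h : ∀ A₀ : Set M, A₀.Countable → Separable L A₀ n) (A : Set M) :
    (dstr L A n).Scat := by
  classical
  intro ε hε P hP hPn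
  by_contra hcon
  have hcon' : ∀ V, IsOpen V → (V ∩ P).Nonempty → ∃ x ∈ V ∩ P, ∃ y ∈ V ∩ P, ¬ Rl ε x y := by
    intro V hV hVP
    by_contra h1
    push Not at h1
    exact hcon ⟨V, hV, hVP, h1⟩
  choose c hc1 hc2 using exists_children hcon' hε
  obtain ⟨z0, hz0⟩ := hPn
  let node : List Bool → Node P := fun l => List.rec ⟨zf L A n, z0, hz0, by
    rw [zf_val]
    norm_num⟩ (fun b _ θ => c θ b) l
  have hnode : ∀ b l, node (b :: l) = c (node l) b := fun b l => rfl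
  -- the branches
  have hz : ∀ σ : ℕ → Bool, ∃ z : TS L A n, ∀ k, z.1 (node (seg σ k)).1 ≤ 1 / 2 := by
    intro σ
    have hcl : ∀ k, IsClosed {z : TS L A n | z.1 (node (seg σ k)).1 ≤ 1 / 2} := fun k =>
      isClosed_le (TS.continuous_val _) continuous_const
    obtain ⟨z, hz⟩ := IsCompact.nonempty_iInter_of_sequence_nonempty_isCompact_isClosed
      (fun k => {z : TS L A n | z.1 (node (seg σ k)).1 ≤ 1 / 2})
      (fun k z hz => hc1 (node (seg σ k)) (σ k) z hz) (fun k => by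
        obtain ⟨z, -, hz⟩ := (node (seg σ k)).2
        exact ⟨z, hz.le⟩) (hcl 0).isCompact hcl
    exact ⟨z, fun k => mem_iInter.1 hz k⟩
  choose z hz using hz
  -- a countable set of parameters
  choose S hS using fun l => Fm.supp (node l).1
  let A₀ : Set M := ⋃ l, ((fun a : A => (a : M)) '' (S l : Set A))
  have hA₀ : A₀.Countable := countable_iUnion fun l => ((S l).countable_toSet).image _
  have hsub : A₀ ⊆ A := by
    intro a ha
    obtain ⟨l, ⟨a', -, rfl⟩⟩ := mem_iUnion.1 ha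
    exact a'.2
  have hφ : ∀ l, ∃ φ : Fm L A₀ n, φ.mapC (fun a : A₀ => (⟨a, hsub a.2⟩ : A)) = (node l).1 :=
    fun l => hS l A₀ _ fun a ha => ⟨⟨a, mem_iUnion.2 ⟨l, a, ha, rfl⟩⟩, rfl⟩
  choose φ hφ using hφ
  obtain ⟨Q, hQ, hQt, hQd⟩ := h A₀ hA₀
  have hq : ∀ σ, ∃ q : TS L A₀ n, q.1 ∈ Q ∧ Rl (ε / 4) (rst hsub (z σ)) q := by
    intro σ
    obtain ⟨q, hq, hd⟩ := hQd (rst hsub (z σ)).1 (hUP L M A₀ n _ (rst hsub (z σ)).2) (ε / 4)
      (by positivity)
    exact ⟨⟨q, (hQt q hq).mem⟩, hq, DistLt.rl (q := ⟨q, (hQt q hq).mem⟩) hd⟩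
  choose q hq1 hq2 using hq
  -- two branches with the same `q`
  have hnot : ¬ Function.Injective fun σ : ℕ → Bool => (⟨(q σ).1, hq1 σ⟩ : Q) := by
    intro hinj
    have : Countable Q := hQ.to_subtype
    obtain ⟨e, he⟩ := Countable.exists_injective_nat Q
    refine Function.cantor_injective (fun T : Set ℕ => e ⟨(q fun k => decide (k ∈ T)).1,
      hq1 _⟩) ?_
    intro T T' hTT
    have h1 := hinj (he hTT)
    ext k
    have h2 := congrFun h1 k
    simpa using h2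
  obtain ⟨σ, τ, hst, hne⟩ : ∃ σ τ : ℕ → Bool, (q σ).1 = (q τ).1 ∧ σ ≠ τ := by
    by_contra h1
    push Not at h1
    exact hnot fun σ τ hστ => h1 σ τ (congrArg (fun x : Q => x.1) hστ)
  have hst' : q σ = q τ := Subtype.ext hst
  have hR : Rl (ε / 4 + ε / 4) (rst hsub (z σ)) (rst hsub (z τ)) := by
    refine Rl_tri (hq2 σ) ?_
    rw [hst']
    exact Rl_symm (hq2 τ)
  have hex : ∃ k, σ k ≠ τ k := by
    by_contra h1
    push Not at h1
    exact hne (funext h1)
  obtain ⟨s, hs, hC⟩ := hR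
  obtain ⟨w, w', hw, hw', hC'⟩ := lift_Cs hsub hC
  have hs' : s ≤ ε / 2 := by linarith
  -- the splitting node
  have hseg : seg σ (Nat.find hex) = seg τ (Nat.find hex) :=
    seg_congr fun i hi => by
      have h1 := Nat.find_min hex hi
      push Not at h1
      exact h1
  have hval : ∀ (σ : ℕ → Bool) (w : TS L A n), rst hsub w = rst hsub (z σ) → ∀ k,
      w.1 (node (seg σ k)).1 ≤ 1 / 2 := by
    intro σ w hw k
    rw [← hφ, ← rst_val, hw, rst_val, hφ]
    exact hz σ k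
  have g1 := hval σ w hw (Nat.find hex + 1)
  have g2 := hval τ w' hw' (Nat.find hex + 1)
  have hk := Nat.find_spec hex
  change w.1 (node (σ _ :: seg σ _)).1 ≤ 1 / 2 at g1
  change w'.1 (node (τ _ :: seg τ _)).1 ≤ 1 / 2 at g2
  rw [hnode] at g1 g2
  rw [← hseg] at g2
  cases h1 : σ (Nat.find hex) with
  | false =>
    cases h2 : τ (Nat.find hex) with
    | false => exact hk (h1.trans h2.symm)
    | true =>
      rw [h1] at g1
      rw [h2] at g2
      exact hc2 _ _ _ g1 g2 ⟨s, hs', hC'⟩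
  | true =>
    cases h2 : τ (Nat.find hex) with
    | true => exact hk (h1.trans h2.symm)
    | false =>
      rw [h1] at g1
      rw [h2] at g2
      exact hc2 _ _ _ g2 g1 ⟨s, hs', Cs_symm hC'⟩

end Pool.Agent.Run7.h690.CL
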