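import Pool.Agent.Run7.h690.CL.Def
import Pool.Agent.Run7.h690.CL.Tree

set_option autoImplicit false

/-!
# Enough d-definable sets
-/

namespace Pool.Agent.Run7.h690.CL

open Set Topology

variable {L : Sig}

/-- **In an `ℵ₀`-stable theory there are enough d-definable sets** -/
theorem enough_of_omega (hUP : S_UP) {T : Set (Fm L Empty 0)} (hT : OmegaStable T) :
    Enough T := by
  intro M _ _ hM A n p hp
  have : Nonempty M := Str.ne (L := L)
  refine ⟨{D | DDef L A D ∧ Realizations A p ⊆ D}, fun D hD => hD.1, ?_⟩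
  refine Subset.antisymm (subset_sInter fun D hD => hD.2) fun x hx => ?_
  by_contra hxp
  have h1 : ∃ φ, ev L A x φ ≠ p φ := by
    by_contra h
    push Not at h
    exact hxp (funext h)
  obtain ⟨φ, hφ⟩ := h1
  let P : TS L A n := ⟨p, hp.mem⟩
  let η : ℝ := |ev L A x φ - p φ| / 2
  have hη : 0 < η := by
    have := abs_pos.2 (sub_ne_zero.2 hφ)
    positivity
  have hcont : Continuous fun z : TS L A n => |z.1 φ - p φ| :=
    ((TS.continuous_val φ).sub continuous_const).abs
  have hU : IsOpen {z : TS L A n | |z.1 φ - p φ| < η} := isOpen_lt hcont continuous_const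
  obtain ⟨f, hf, h01, hfK, hL, hMf⟩ := Top.exists_fun (dstr L A n)
    (scat hUP (fun A₀ hA₀ => hT M hM A₀ hA₀ n) A) {P} _ isClosed_singleton hU
    (singleton_subset_iff.2 (by
      change |p φ - p φ| < η
      rw [sub_self, abs_zero]
      exact hη)) (singleton_nonempty P)
  have hD := dDef_of_fun (L := L) (A := A) f hf h01 hL fun r x h => by
    obtain ⟨y, -, hy⟩ := hMf r x h
    exact ⟨y, hy⟩
  have hxD : x ∈ {x : Fin n → M | f (pt L A x) = 0} := by
    refine mem_sInter.1 hx _ ⟨hD, fun y hy => ?_⟩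
    have h2 : pt L A y = P := Subtype.ext hy
    change f (pt L A y) = 0
    rw [h2]
    exact hfK P rfl
  have hc2 : Continuous fun w : Fin n → M => |ev L A w φ - p φ| := hcont.comp continuous_pt
  have hcl : x ∈ closure {w : Fin n → M | |ev L A w φ - p φ| < η} := by
    rw [Metric.mem_closure_iff]
    intro r hr
    have h3 : f (pt L A x) < r := by
      have h4 : f (pt L A x) = 0 := hxD
      rw [h4]
      exact hr
    obtain ⟨y, hyU, -, hR⟩ := hMf r _ h3
    obtain ⟨w, hw, hxw⟩ := near hR _ hU hyU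
    exact ⟨w, hw, hxw⟩
  have h5 : |ev L A x φ - p φ| ≤ η := by
    have h6 : IsClosed {w : Fin n → M | |ev L A w φ - p φ| ≤ η} :=
      isClosed_le hc2 continuous_const
    have h8 : {w : Fin n → M | |ev L A w φ - p φ| < η} ⊆
        {w : Fin n → M | |ev L A w φ - p φ| ≤ η} := fun w hw =>
      le_of_lt (show |ev L A w φ - p φ| < η from hw)
    exact closure_minimal h8 h6 hcl
  have h7 : |ev L A x φ - p φ| = 2 * η := by
    simp only [η]
    ring
  linarith

/-- **There is a stable theory without enough d-definable sets** -/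
theorem stable_not_enough (hEX : S_EX) : ∃ (L : Sig) (_ : Countable (Σ n, L.Fn n))
    (_ : Countable (Σ n, L.Rl n)) (T : Set (Fm L Empty 0)), Stable T ∧
      (∃ (M : Type) (_ : MetricSpace M) (_ : Str L M), Model T M) ∧
      (∀ (M N : Type) [MetricSpace M] [Str L M] [MetricSpace N] [Str L N], Model T M →
        Model T N → ∀ σ : Fm L Empty 0, σ.val (M := M) Empty.elim Fin.elim0 =
          σ.val (M := N) Empty.elim Fin.elim0) ∧
      (∀ (M : Type) [MetricSpace M] [Str L M], Model T M → ∀ D : Set (Fin 1 → M),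
        DDef L (∅ : Set M) D → D = ∅ ∨ D = univ) ∧ ¬ Enough T := by
  obtain ⟨L, h1, h2, T, h3, ⟨M, i1, i2, hM, p, hp, hne, hnu⟩, h4, h5⟩ := hEX
  refine ⟨L, h1, h2, T, h3, ⟨M, i1, i2, hM⟩, h5, h4, fun h => ?_⟩
  obtain ⟨𝒟, h6, h7⟩ := h M hM ∅ 1 p hp
  by_cases hE : ∅ ∈ 𝒟
  · obtain ⟨x, hx⟩ := hne
    rw [h7] at hx
    exact mem_sInter.1 hx ∅ hE
  · refine hnu ?_
    rw [h7, sInter_eq_univ]
    intro D hD
    exact (h4 M hM D (h6 D hD)).resolve_left fun h => hE (h ▸ hD)

end Pool.Agent.Run7.h690.CL
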