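import Pool.Agent.Run7.h690.CL.Iface

set_option autoImplicit false

/-!
# Operations on formulas
-/

namespace Pool.Agent.Run7.h690.CL

open Set

variable {L : Sig} {C C' : Type} {M : Type} [MetricSpace M] [Str L M]

theorem strNonempty (L : Sig) (M : Type) [MetricSpace M] [h : Str L M] :
    Nonempty M := h.ne

/-! ## Values -/

theorem Fm.val_mem (L : Sig) {C M : Type} [MetricSpace M] [Str L M] (c : C → M) :
    ∀ {n : ℕ} (φ : Fm L C n) (v : Fin n → M), φ.val c v ∈ Icc (0 : ℝ) 1
  | _, .rel R ts, v => Str.rl_mem R _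
  | _, .dst s t, v => ⟨dist_nonneg, Str.diam (L := L) _ _⟩
  | _, .con u φs, v => u.mem _
  | _, .sup φ, v => by
    have := strNonempty L M
    have h : ∀ x : M, φ.val c (Fin.snoc (α := fun _ => M) v x) ∈ Icc (0 : ℝ) 1 := fun x =>
      Fm.val_mem L c φ _
    have hb : BddAbove (range fun x : M => φ.val c (Fin.snoc (α := fun _ => M) v x)) :=
      ⟨1, by rintro _ ⟨x, rfl⟩; exact (h x).2⟩
    obtain ⟨x⟩ := ‹Nonempty M›
    exact ⟨(h x).1.trans (le_ciSup hb x), ciSup_le fun x => (h x).2⟩
  | _, .inf φ, v => by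
    have := strNonempty L M
    have h : ∀ x : M, φ.val c (Fin.snoc (α := fun _ => M) v x) ∈ Icc (0 : ℝ) 1 := fun x =>
      Fm.val_mem L c φ _
    have hb : BddBelow (range fun x : M => φ.val c (Fin.snoc (α := fun _ => M) v x)) :=
      ⟨0, by rintro _ ⟨x, rfl⟩; exact (h x).1⟩
    obtain ⟨x⟩ := ‹Nonempty M›
    exact ⟨le_ciInf fun x => (h x).1, (ciInf_le hb x).trans (h x).2⟩

theorem Fm.bddAbove (c : C → M) {n : ℕ} (φ : Fm L C (n + 1)) (v : Fin n → M) :
    BddAbove (range fun x : M => φ.val c (Fin.snoc (α := fun _ => M) v x)) :=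
  ⟨1, by rintro _ ⟨x, rfl⟩; exact (Fm.val_mem L c φ _).2⟩

theorem Fm.bddBelow (c : C → M) {n : ℕ} (φ : Fm L C (n + 1)) (v : Fin n → M) :
    BddBelow (range fun x : M => φ.val c (Fin.snoc (α := fun _ => M) v x)) :=
  ⟨0, by rintro _ ⟨x, rfl⟩; exact (Fm.val_mem L c φ _).1⟩

theorem Fm.inf_lt (c : C → M) {n : ℕ} (φ : Fm L C (n + 1)) (v : Fin n → M) (r : ℝ) :
    (Fm.inf φ).val c v < r ↔ ∃ x : M, φ.val c (Fin.snoc (α := fun _ => M) v x) < r := by
  have := strNonempty L M
  constructor
  · intro h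
    exact exists_lt_of_ciInf_lt h
  · rintro ⟨x, hx⟩
    exact (ciInf_le (φ.bddBelow c v) x).trans_lt hx

/-! ## Renaming of the variables -/

/-- renaming of variables -/
def Tm.rename {n m : ℕ} (ρ : Fin n → Fin m) : Tm L C n → Tm L C m
  | .var i => .var (ρ i)
  | .cst a => .cst a
  | .app F ts => .app F fun i => (ts i).rename ρ

/-- the extension of a renaming to one more variable -/
def up {n m : ℕ} (ρ : Fin n → Fin m) : Fin (n + 1) → Fin (m + 1) :=
  Fin.snoc (α := fun _ => Fin (m + 1)) (fun i => (ρ i).castSucc) (Fin.last m)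

/-- renaming of variables -/
def Fm.rename : ∀ {n m : ℕ}, (Fin n → Fin m) → Fm L C n → Fm L C m
  | _, _, ρ, .rel R ts => .rel R fun i => (ts i).rename ρ
  | _, _, ρ, .dst s t => .dst (s.rename ρ) (t.rename ρ)
  | _, _, ρ, .con u φs => .con u fun j => (φs j).rename ρ
  | _, _, ρ, .sup φ => .sup (φ.rename (up ρ))
  | _, _, ρ, .inf φ => .inf (φ.rename (up ρ))

theorem Tm.val_rename (c : C → M) {n m : ℕ} (ρ : Fin n → Fin m) (v : Fin m → M) :
    ∀ t : Tm L C n, (t.rename ρ).val c v = t.val c (fun i => v (ρ i))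
  | .var _ => rfl
  | .cst _ => rfl
  | .app F ts => by
    change Str.fn F _ = Str.fn F _
    congr 1
    funext i
    exact Tm.val_rename c ρ v (ts i)

omit [MetricSpace M] in
theorem snoc_up {n m : ℕ} (ρ : Fin n → Fin m) (v : Fin m → M) (x : M) :
    (fun i => Fin.snoc (α := fun _ => M) v x (up ρ i)) =
      Fin.snoc (α := fun _ => M) (fun i => v (ρ i)) x := by
  funext i
  refine Fin.lastCases ?_ (fun i => ?_) i
  · simp [up]
  · simp [up]

theorem Fm.val_rename (c : C → M) : ∀ {n m : ℕ} (ρ : Fin n → Fin m) (φ : Fm L C n)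
    (v : Fin m → M), (φ.rename ρ).val c v = φ.val c (fun i => v (ρ i))
  | _, _, ρ, .rel R ts, v => by
    change Str.rl R _ = Str.rl R _
    congr 1
    funext i
    exact Tm.val_rename c ρ v (ts i)
  | _, _, ρ, .dst s t, v => by
    change dist _ _ = dist _ _
    rw [Tm.val_rename, Tm.val_rename]
  | _, _, ρ, .con u φs, v => by
    change u.u _ = u.u _
    congr 1
    funext j
    exact Fm.val_rename c ρ (φs j) v
  | _, _, ρ, .sup φ, v => by
    change (⨆ x : M, _) = ⨆ x : M, _
    congr 1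
    funext x
    rw [Fm.val_rename c (up ρ) φ, snoc_up]
  | _, _, ρ, .inf φ, v => by
    change (⨅ x : M, _) = ⨅ x : M, _
    congr 1
    funext x
    rw [Fm.val_rename c (up ρ) φ, snoc_up]

/-! ## Change of the constants -/

/-- change of constants -/
def Tm.mapC (f : C' → C) {n : ℕ} : Tm L C' n → Tm L C n
  | .var i => .var i
  | .cst a => .cst (f a)
  | .app F ts => .app F fun i => (ts i).mapC f

/-- change of constants -/
def Fm.mapC (f : C' → C) : ∀ {n : ℕ}, Fm L C' n → Fm L C n
  | _, .rel R ts => .rel R fun i => (ts i).mapC f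
  | _, .dst s t => .dst (s.mapC f) (t.mapC f)
  | _, .con u φs => .con u fun j => (φs j).mapC f
  | _, .sup φ => .sup (φ.mapC f)
  | _, .inf φ => .inf (φ.mapC f)

theorem Tm.val_mapC (f : C' → C) (c : C → M) {n : ℕ} (v : Fin n → M) :
    ∀ t : Tm L C' n, (t.mapC f).val c v = t.val (fun a => c (f a)) v
  | .var _ => rfl
  | .cst _ => rfl
  | .app F ts => by
    change Str.fn F _ = Str.fn F _
    congr 1
    funext i
    exact Tm.val_mapC f c v (ts i)

theorem Fm.val_mapC (f : C' → C) (c : C → M) : ∀ {n : ℕ} (φ : Fm L C' n) (v : Fin n → M),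
    (φ.mapC f).val c v = φ.val (fun a => c (f a)) v
  | _, .rel R ts, v => by
    change Str.rl R _ = Str.rl R _
    congr 1
    funext i
    exact Tm.val_mapC f c v (ts i)
  | _, .dst s t, v => by
    change dist _ _ = dist _ _
    rw [Tm.val_mapC, Tm.val_mapC]
  | _, .con u φs, v => by
    change u.u _ = u.u _
    congr 1
    funext j
    exact Fm.val_mapC f c (φs j) v
  | _, .sup φ, v => by
    change (⨆ x : M, _) = ⨆ x : M, _
    congr 1
    funext x
    exact Fm.val_mapC f c φ _
  | _, .inf φ, v => by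
    change (⨅ x : M, _) = ⨅ x : M, _
    congr 1
    funext x
    exact Fm.val_mapC f c φ _

open Classical in
/-- a term uses only finitely many constants -/
theorem Tm.supp {n : ℕ} : ∀ t : Tm L C n, ∃ S : Finset C, ∀ (C' : Type) (f : C' → C),
    (∀ a ∈ S, ∃ a', f a' = a) → ∃ t' : Tm L C' n, t'.mapC f = t
  | .var i => ⟨∅, fun _ _ _ => ⟨.var i, rfl⟩⟩
  | .cst a => ⟨{a}, fun _ f hf => by
      obtain ⟨a', ha'⟩ := hf a (Finset.mem_singleton_self a)
      exact ⟨.cst a', by rw [← ha']; rfl⟩⟩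
  | .app F ts => by
    choose S hS using fun i => Tm.supp (ts i)
    refine ⟨Finset.univ.biUnion S, fun C' f hf => ?_⟩
    choose t' ht' using fun i => hS i C' f fun a ha =>
      hf a (Finset.mem_biUnion.2 ⟨i, Finset.mem_univ _, ha⟩)
    refine ⟨.app F t', ?_⟩
    change Tm.app F (fun i => (t' i).mapC f) = _
    congr 1
    exact funext ht'

open Classical in
/-- a formula uses only finitely many constants -/
theorem Fm.supp : ∀ {n : ℕ} (φ : Fm L C n), ∃ S : Finset C, ∀ (C' : Type) (f : C' → C),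
    (∀ a ∈ S, ∃ a', f a' = a) → ∃ φ' : Fm L C' n, φ'.mapC f = φ
  | _, .rel R ts => by
    choose S hS using fun i => Tm.supp (ts i)
    refine ⟨Finset.univ.biUnion S, fun C' f hf => ?_⟩
    choose t' ht' using fun i => hS i C' f fun a ha =>
      hf a (Finset.mem_biUnion.2 ⟨i, Finset.mem_univ _, ha⟩)
    refine ⟨.rel R t', ?_⟩
    change Fm.rel R (fun i => (t' i).mapC f) = _
    congr 1
    exact funext ht'
  | _, .dst s t => by
    obtain ⟨S, hS⟩ := Tm.supp s
    obtain ⟨T, hT⟩ := Tm.supp t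
    refine ⟨S ∪ T, fun C' f hf => ?_⟩
    obtain ⟨s', hs'⟩ := hS C' f fun a ha => hf a (Finset.mem_union_left _ ha)
    obtain ⟨t', ht'⟩ := hT C' f fun a ha => hf a (Finset.mem_union_right _ ha)
    refine ⟨.dst s' t', ?_⟩
    change Fm.dst (s'.mapC f) (t'.mapC f) = _
    rw [hs', ht']
  | _, .con u φs => by
    choose S hS using fun i => Fm.supp (φs i)
    refine ⟨Finset.univ.biUnion S, fun C' f hf => ?_⟩
    choose t' ht' using fun i => hS i C' f fun a ha =>
      hf a (Finset.mem_biUnion.2 ⟨i, Finset.mem_univ _, ha⟩)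
    refine ⟨.con u t', ?_⟩
    change Fm.con u (fun i => (t' i).mapC f) = _
    congr 1
    exact funext ht'
  | _, .sup φ => by
    obtain ⟨S, hS⟩ := Fm.supp φ
    refine ⟨S, fun C' f hf => ?_⟩
    obtain ⟨φ', hφ'⟩ := hS C' f hf
    exact ⟨.sup φ', by rw [← hφ']; rfl⟩
  | _, .inf φ => by
    obtain ⟨S, hS⟩ := Fm.supp φ
    refine ⟨S, fun C' f hf => ?_⟩
    obtain ⟨φ', hφ'⟩ := hS C' f hf
    exact ⟨.inf φ', by rw [← hφ']; rfl⟩

/-! ## Infima over several variables -/

/-- the infimum over the last `m` variables -/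
def Fm.infs : ∀ (m : ℕ) {n : ℕ}, Fm L C (n + m) → Fm L C n
  | 0, _, φ => φ
  | m + 1, _, φ => Fm.infs m (.inf φ)

omit [MetricSpace M] in
theorem append_snoc {n m : ℕ} (v : Fin n → M) (y : Fin m → M) (x : M) :
    Fin.snoc (α := fun _ => M) (Fin.append v y) x =
      Fin.append v (Fin.snoc (α := fun _ => M) y x) := by
  funext i
  refine Fin.lastCases ?_ (fun i => ?_) i
  · rw [Fin.snoc_last, ← Fin.natAdd_last, Fin.append_right, Fin.snoc_last]
  · rw [Fin.snoc_castSucc]
    refine Fin.addCases (fun i => ?_) (fun i => ?_) i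
    · rw [Fin.append_left]
      have h : (Fin.castAdd m i).castSucc = Fin.castAdd (m + 1) i := rfl
      rw [h, Fin.append_left]
    · rw [Fin.append_right]
      have h : (Fin.natAdd n i).castSucc = Fin.natAdd n i.castSucc := rfl
      rw [h, Fin.append_right, Fin.snoc_castSucc]

theorem Fm.infs_lt (c : C → M) : ∀ (m : ℕ) {n : ℕ} (φ : Fm L C (n + m)) (v : Fin n → M) (r : ℝ),
    (Fm.infs m φ).val c v < r ↔ ∃ y : Fin m → M, φ.val c (Fin.append v y) < r
  | 0, n, φ, v, r => by
    have h : ∀ y : Fin 0 → M, Fin.append v y = v := fun y => by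
      funext i
      exact Fin.append_left v y i
    constructor
    · intro h1
      exact ⟨Fin.elim0, by rw [h]; exact h1⟩
    · rintro ⟨y, hy⟩
      rw [h] at hy
      exact hy
  | m + 1, n, φ, v, r => by
    change (Fm.infs m (Fm.inf φ)).val c v < r ↔ _
    rw [Fm.infs_lt c m (Fm.inf φ) v r]
    constructor
    · rintro ⟨y, hy⟩
      obtain ⟨x, hx⟩ := (Fm.inf_lt c φ _ r).1 hy
      exact ⟨Fin.snoc (α := fun _ => M) y x, by rw [← append_snoc]; exact hx⟩
    · rintro ⟨y, hy⟩
      refine ⟨Fin.init (α := fun _ => M) y, (Fm.inf_lt c φ _ r).2 ⟨y (Fin.last m), ?_⟩⟩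
      rw [append_snoc, Fin.snoc_init_self]
      exact hy

/-! ## Uniform continuity -/

theorem Tm.uc (c : C → M) {n : ℕ} : ∀ t : Tm L C n,
    UniformContinuous fun v : Fin n → M => t.val c v
  | .var i => Pi.uniformContinuous_proj (fun _ => M) i
  | .cst a => uniformContinuous_const
  | .app F ts => by
    have h1 : UniformContinuous fun w : Fin _ → M => Str.fn (L := L) F w := by
      rw [Metric.uniformContinuous_iff]
      intro ε hε
      refine ⟨L.mf F (ε / 2), L.mf_pos F _ (half_pos hε), fun {v w} h => ?_⟩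
      exact (Str.fn_unif F (ε / 2) (half_pos hε) v w h).trans_lt (half_lt_self hε)
    exact h1.comp (uniformContinuous_pi.2 fun i => Tm.uc c (ts i))

theorem dist_snoc {n : ℕ} (v w : Fin n → M) (x : M) :
    dist (Fin.snoc (α := fun _ => M) v x) (Fin.snoc (α := fun _ => M) w x) ≤ dist v w := by
  rw [dist_pi_le_iff dist_nonneg]
  intro i
  refine Fin.lastCases ?_ (fun i => ?_) i
  · simp [dist_nonneg]
  · simp only [Fin.snoc_castSucc]
    exact dist_le_pi_dist v w i

theorem Fm.uc (c : C → M) : ∀ {n : ℕ} (φ : Fm L C n),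
    UniformContinuous fun v : Fin n → M => φ.val c v
  | _, .rel R ts => by
    have h1 : UniformContinuous fun w : Fin _ → M => Str.rl (L := L) R w := by
      rw [Metric.uniformContinuous_iff]
      intro ε hε
      refine ⟨L.mr R (ε / 2), L.mr_pos R _ (half_pos hε), fun {v w} h => ?_⟩
      rw [Real.dist_eq]
      exact (Str.rl_unif R (ε / 2) (half_pos hε) v w h).trans_lt (half_lt_self hε)
    exact h1.comp (uniformContinuous_pi.2 fun i => Tm.uc c (ts i))
  | _, .dst s t => uniformContinuous_dist.comp ((Tm.uc c s).prodMk (Tm.uc c t))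
  | n, .con (k := k) u φs => by
    let Q : Set (Fin k → ℝ) := Set.pi univ fun _ => Icc (0 : ℝ) 1
    haveI : CompactSpace Q := isCompact_iff_compactSpace.1
      (isCompact_univ_pi fun _ => isCompact_Icc)
    have h1 : UniformContinuous fun x : Q => u.u x.1 :=
      CompactSpace.uniformContinuous_of_continuous (u.cont.comp continuous_subtype_val)
    have h2 : UniformContinuous fun v : Fin n → M =>
        (⟨fun j => (φs j).val c v, fun j _ => Fm.val_mem L c (φs j) v⟩ : Q) :=
      (uniformContinuous_pi.2 fun j => Fm.uc c (φs j)).subtype_mk _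
    exact h1.comp h2
  | _, .sup φ => by
    have := strNonempty L M
    have h1 := Fm.uc c φ
    rw [Metric.uniformContinuous_iff] at h1 ⊢
    intro ε hε
    obtain ⟨δ, hδ, h2⟩ := h1 (ε / 2) (half_pos hε)
    refine ⟨δ, hδ, fun {v w} h => ?_⟩
    have h3 : ∀ v w : Fin _ → M, dist v w < δ →
        (⨆ x : M, φ.val c (Fin.snoc (α := fun _ => M) v x)) ≤
          (⨆ x : M, φ.val c (Fin.snoc (α := fun _ => M) w x)) + ε / 2 := by
      intro v w hvw
      refine ciSup_le fun x => ?_
      have h4 := h2 (a := Fin.snoc (α := fun _ => M) v x) (b := Fin.snoc (α := fun _ => M) w x)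
        ((dist_snoc v w x).trans_lt hvw)
      rw [Real.dist_eq] at h4
      have h5 := le_ciSup (φ.bddAbove c w) x
      have h6 := abs_lt.1 h4
      linarith [h6.2]
    rw [Real.dist_eq]
    change |(⨆ x : M, φ.val c (Fin.snoc (α := fun _ => M) v x)) -
      (⨆ x : M, φ.val c (Fin.snoc (α := fun _ => M) w x))| < ε
    have h4 := h3 v w h
    have h5 := h3 w v (by rwa [dist_comm])
    rw [abs_lt]
    constructor <;> linarith
  | _, .inf φ => by
    have := strNonempty L M
    have h1 := Fm.uc c φ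
    rw [Metric.uniformContinuous_iff] at h1 ⊢
    intro ε hε
    obtain ⟨δ, hδ, h2⟩ := h1 (ε / 2) (half_pos hε)
    refine ⟨δ, hδ, fun {v w} h => ?_⟩
    have h3 : ∀ v w : Fin _ → M, dist v w < δ →
        (⨅ x : M, φ.val c (Fin.snoc (α := fun _ => M) v x)) ≤
          (⨅ x : M, φ.val c (Fin.snoc (α := fun _ => M) w x)) + ε / 2 := by
      intro v w hvw
      rw [← sub_le_iff_le_add]
      refine le_ciInf fun x => ?_
      have h4 := h2 (a := Fin.snoc (α := fun _ => M) v x) (b := Fin.snoc (α := fun _ => M) w x)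
        ((dist_snoc v w x).trans_lt hvw)
      rw [Real.dist_eq] at h4
      have h5 := ciInf_le (φ.bddBelow c v) x
      have h6 := abs_lt.1 h4
      linarith [h6.2]
    rw [Real.dist_eq]
    change |(⨅ x : M, φ.val c (Fin.snoc (α := fun _ => M) v x)) -
      (⨅ x : M, φ.val c (Fin.snoc (α := fun _ => M) w x))| < ε
    have h4 := h3 v w h
    have h5 := h3 w v (by rwa [dist_comm])
    rw [abs_lt]
    constructor <;> linarith

end Pool.Agent.Run7.h690.CL
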