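import Mathlib

set_option autoImplicit false

/-!
# Compact spaces with an open family of neighbourhood operators: definable sets
-/

namespace Pool.Agent.Run7.h690.CL.Top

open Set Topology

section good

variable {X : Type} [TopologicalSpace X] [CompactSpace X] [T2Space X] (N : Set X → Set X)

/-- `K` can be enlarged inside every neighbourhood to a closed set whose fattening is a
neighbourhood -/
def Good (K : Set X) : Prop :=
  ∀ U, IsOpen U → K ⊆ U → ∃ D, IsClosed D ∧ K ⊆ D ∧ D ⊆ U ∧ ∃ W, IsOpen W ∧ D ⊆ W ∧ W ⊆ N D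

variable {N}

omit [CompactSpace X] [T2Space X] in
theorem Good.union (hm : ∀ S T, S ⊆ T → N S ⊆ N T) {K K' : Set X} (h : Good N K)
    (h' : Good N K') : Good N (K ∪ K') := by
  intro U hU hKU
  obtain ⟨D, h1, h2, h3, W, h4, h5, h6⟩ := h U hU (subset_union_left.trans hKU)
  obtain ⟨D', h1', h2', h3', W', h4', h5', h6'⟩ := h' U hU (subset_union_right.trans hKU)
  refine ⟨D ∪ D', h1.union h1', union_subset_union h2 h2', union_subset h3 h3', W ∪ W',
    h4.union h4', union_subset_union h5 h5', ?_⟩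
  exact union_subset (h6.trans (hm _ _ subset_union_left))
    (h6'.trans (hm _ _ subset_union_right))

omit [CompactSpace X] [T2Space X] in
theorem good_empty : Good N (∅ : Set X) := fun _ _ _ =>
  ⟨∅, isClosed_empty, Subset.rfl, empty_subset _, ∅, isOpen_empty, Subset.rfl, empty_subset _⟩

theorem exists_good (hm : ∀ S T, S ⊆ T → N S ⊆ N T) (ho : ∀ U, IsOpen U → IsOpen (N U))
    (hs : ∀ P : Set X, IsClosed P → P.Nonempty → ∃ V, IsOpen V ∧ (V ∩ P).Nonempty ∧
      ∀ x ∈ V ∩ P, ∀ y ∈ V ∩ P, x ∈ N {y}) (K : Set X) (hK : IsClosed K) : Good N K := by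
  let F : Set (Set X) := {V | IsOpen V ∧ ∀ K, IsClosed K → K ⊆ V → Good N K}
  have h1 : ∀ K, IsClosed K → K ⊆ ⋃₀ F → Good N K := by
    intro K hK hKF
    obtain ⟨T, hT, hTf, hTK⟩ := hK.isCompact.elim_finite_subcover_image (b := F) (c := id)
      (fun V hV => hV.1) (by simpa [sUnion_eq_biUnion] using hKF)
    obtain ⟨C, hC1, hC2, hC3⟩ := hK.isCompact.finite_compact_cover hTf.toFinset id
      (fun V hV => (hT (hTf.mem_toFinset.1 hV)).1) (by simpa using hTK)
    rw [hC3]
    have key : ∀ t : Finset (Set X), (∀ V ∈ t, V ∈ F) → Good N (⋃ i ∈ t, C i) := by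
      classical
      intro t
      induction t using Finset.induction_on with
      | empty => intro _; simpa using good_empty
      | insert V t _ ih =>
        intro ht
        rw [Finset.set_biUnion_insert]
        refine Good.union hm ?_ (ih fun V hV => ht V (Finset.mem_insert_of_mem hV))
        exact (ht V (Finset.mem_insert_self _ _)).2 _ (hC1 V).isClosed (hC2 V)
    exact key _ fun V hV => hT (hTf.mem_toFinset.1 hV)
  have h2 : ⋃₀ F = univ := by
    by_contra hne
    have hF : IsOpen (⋃₀ F) := isOpen_sUnion fun V hV => hV.1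
    obtain ⟨V, hV, ⟨z, hz⟩, hVP⟩ := hs (⋃₀ F)ᶜ hF.isClosed_compl (nonempty_compl.2 hne)
    have h3 : ⋃₀ F ∪ V ∈ F := by
      refine ⟨hF.union hV, fun K hK hKV U hU hKU => ?_⟩
      by_cases hKP : (K ∩ (⋃₀ F)ᶜ).Nonempty
      · obtain ⟨r, hr⟩ := hKP
        have hKPV : K ∩ (⋃₀ F)ᶜ ⊆ V ∩ U := fun x hx =>
          ⟨(hKV hx.1).resolve_left hx.2, hKU hx.1⟩
        obtain ⟨O, hO, hKO, hOV⟩ := normal_exists_closure_subset (hK.inter hF.isClosed_compl)
          (hV.inter hU) hKPV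
        have hB : closure O \ N O ⊆ ⋃₀ F := by
          intro x hx
          by_contra hxF
          refine hx.2 (hm {r} O (singleton_subset_iff.2 (hKO hr)) ?_)
          exact hVP x ⟨(hOV hx.1).1, hxF⟩ r ⟨(hKPV hr).1, hr.2⟩
        obtain ⟨D, g1, g2, g3, W, g4, g5, g6⟩ := h1 ((closure O \ N O) ∪ (K \ O))
          ((isClosed_closure.sdiff (ho O hO)).union (hK.sdiff hO))
          (union_subset hB fun x hx => by
            by_contra hxF
            exact hx.2 (hKO ⟨hx.1, hxF⟩)) U hU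
          (union_subset (fun x hx => (hOV hx.1).2) fun x hx => hKU hx.1)
        refine ⟨closure O ∪ D, isClosed_closure.union g1, fun x hx => ?_,
          union_subset (fun x hx => (hOV hx).2) g3, N O ∪ W, (ho O hO).union g4, ?_, ?_⟩
        · by_cases hxO : x ∈ O
          · exact Or.inl (subset_closure hxO)
          · exact Or.inr (g2 (Or.inr ⟨hx, hxO⟩))
        · rintro x (hx | hx)
          · by_cases hxN : x ∈ N O
            · exact Or.inl hxN
            · exact Or.inr (g5 (g2 (Or.inl ⟨hx, hxN⟩)))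
          · exact Or.inr (g5 hx)
        · exact union_subset (hm _ _ (subset_closure.trans subset_union_left))
            (g6.trans (hm _ _ subset_union_right))
      · refine h1 K hK (fun x hx => ?_) U hU hKU
        by_contra hxF
        exact hKP ⟨x, hx, hxF⟩
    exact hz.2 (mem_sUnion.2 ⟨_, h3, Or.inr hz.1⟩)
  exact h1 K hK (h2 ▸ subset_univ _)

end good

/-! ## The distance function of a definable set -/

/-- the properties of the relation `d(x, y) < r` -/
structure Dst (X : Type) [TopologicalSpace X] where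
  R : ℝ → X → X → Prop
  mono : ∀ {r s x y}, r ≤ s → R r x y → R s x y
  refl : ∀ {r} x, 0 < r → R r x x
  tri : ∀ {r s x y z}, R r x y → R s y z → R (r + s) x z
  all : ∀ {r} x y, 1 < r → R r x y
  opn : ∀ {r} U, 0 < r → IsOpen U → IsOpen {x | ∃ y ∈ U, R r x y}
  cls : ∀ {r s} D, r < s → IsClosed D → closure {x | ∃ y ∈ D, R r x y} ⊆ {x | ∃ y ∈ D, R s x y}

variable {X : Type} [TopologicalSpace X]

/-- every closed nonempty set has a nonempty relatively open subset of small diameter -/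
def Dst.Scat (T : Dst X) : Prop :=
  ∀ ε, 0 < ε → ∀ P : Set X, IsClosed P → P.Nonempty → ∃ V, IsOpen V ∧ (V ∩ P).Nonempty ∧
    ∀ x ∈ V ∩ P, ∀ y ∈ V ∩ P, T.R ε x y

/-- the closed and the open sets of the construction -/
structure Pr (X : Type) [TopologicalSpace X] where
  D : Set X
  U : Set X
  hD : IsClosed D
  hU : IsOpen U
  hDU : D ⊆ U

theorem exists_seq [CompactSpace X] [T2Space X] (T : Dst X) (hT : T.Scat) (K U : Set X)
    (hK : IsClosed K) (hU : IsOpen U) (hKU : K ⊆ U) :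
    ∃ P : ℕ → Pr X, K ⊆ (P 0).D ∧ (P 0).U ⊆ U ∧ ∀ i, (P i).D ⊆ (P (i + 1)).D ∧
      (P (i + 1)).U ⊆ (P i).U ∧
      (P (i + 1)).U ⊆ {x | ∃ y ∈ (P (i + 1)).D, T.R ((1 / 2) ^ i) x y} := by
  have step : ∀ (i : ℕ) (P : Pr X), ∃ Q : Pr X, P.D ⊆ Q.D ∧ Q.U ⊆ P.U ∧
      Q.U ⊆ {x | ∃ y ∈ Q.D, T.R ((1 / 2) ^ i) x y} := by
    intro i P
    have hpos : (0 : ℝ) < (1 / 2) ^ i := by positivity
    obtain ⟨D, h1, h2, h3, W, h4, h5, h6⟩ := exists_good
      (N := fun S => {x | ∃ y ∈ S, T.R ((1 / 2) ^ i) x y})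
      (fun S S' h x ⟨y, hy, hR⟩ => ⟨y, h hy, hR⟩) (fun U hU => T.opn U hpos hU)
      (fun P hP hPn => by
        obtain ⟨V, g1, g2, g3⟩ := hT _ hpos P hP hPn
        exact ⟨V, g1, g2, fun x hx y hy => ⟨y, rfl, g3 x hx y hy⟩⟩) P.D P.hD P.U P.hU P.hDU
    exact ⟨⟨D, W ∩ P.U, h1, h4.inter P.hU, subset_inter h5 h3⟩, h2, inter_subset_right,
      inter_subset_left.trans h6⟩
  choose Q hQ1 hQ2 hQ3 using step
  let P : ℕ → Pr X := fun i => Nat.rec ⟨K, U, hK, hU, hKU⟩ (fun i P => Q i P) i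
  exact ⟨P, Subset.rfl, Subset.rfl, fun i => ⟨hQ1 i (P i), hQ2 i (P i), hQ3 i (P i)⟩⟩

theorem exists_fun [CompactSpace X] [T2Space X] (T : Dst X) (hT : T.Scat) (K U : Set X)
    (hK : IsClosed K) (hU : IsOpen U) (hKU : K ⊆ U) (hKn : K.Nonempty) :
    ∃ f : X → ℝ, Continuous f ∧ (∀ x, f x ∈ Icc (0 : ℝ) 1) ∧ (∀ x ∈ K, f x = 0) ∧
      (∀ r x y, 0 < r → T.R r x y → f x ≤ f y + r) ∧
      ∀ r x, f x < r → ∃ y ∈ U, f y = 0 ∧ T.R r x y := by
  obtain ⟨P, hP0, hPU, hP⟩ := exists_seq T hT K U hK hU hKU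
  have hDmono : ∀ {i j}, i ≤ j → (P i).D ⊆ (P j).D := fun {i j} h =>
    monotone_nat_of_le_succ (f := fun i => (P i).D) (fun i => (hP i).1) h
  have hUanti : ∀ {i j}, i ≤ j → (P j).U ⊆ (P i).U := fun {i j} h =>
    antitone_nat_of_succ_le (f := fun i => (P i).U) (fun i => (hP i).2.1) h
  let S : X → Set ℝ := fun x => {r | 0 < r ∧ ∃ i, ∃ y ∈ (P i).D, T.R r x y}
  let f : X → ℝ := fun x => sInf (S x)
  obtain ⟨k, hk⟩ := hKn
  have hS2 : ∀ x, ∀ r, 1 < r → r ∈ S x := fun x r hr =>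
    ⟨by linarith, 0, k, hP0 hk, T.all x k hr⟩
  have hSne : ∀ x, (S x).Nonempty := fun x => ⟨2, hS2 x 2 (by norm_num)⟩
  have hSb : ∀ x, BddBelow (S x) := fun x => ⟨0, fun r hr => hr.1.le⟩
  have hf0 : ∀ x, 0 ≤ f x := fun x => le_csInf (hSne x) fun r hr => hr.1.le
  have hf1 : ∀ x, f x ≤ 1 := fun x => le_of_forall_gt_imp_ge_of_dense fun r hr =>
    csInf_le (hSb x) (hS2 x r hr)
  have hlt : ∀ x r, f x < r → ∃ s, s < r ∧ 0 < s ∧ ∃ i, ∃ y ∈ (P i).D, T.R s x y := by
    intro x r h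
    obtain ⟨s, hs, hsr⟩ := exists_lt_of_csInf_lt (hSne x) h
    exact ⟨s, hsr, hs.1, hs.2⟩
  have hle : ∀ x r i y, y ∈ (P i).D → 0 < r → T.R r x y → f x ≤ r := fun x r i y hy hr hR =>
    csInf_le (hSb x) ⟨hr, i, y, hy, hR⟩
  have hzero : ∀ i, ∀ y ∈ (P i).D, f y = 0 := by
    intro i y hy
    refine le_antisymm (le_of_forall_gt_imp_ge_of_dense fun r hr => ?_) (hf0 y)
    exact hle y r i y hy hr (T.refl y hr)
  have hsmall : ∀ δ : ℝ, 0 < δ → ∃ i : ℕ, ((1 : ℝ) / 2) ^ i < δ := fun δ hδ =>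
    exists_pow_lt_of_lt_one hδ (by norm_num)
  refine ⟨f, ?_, fun x => ⟨hf0 x, hf1 x⟩, fun x hx => hzero 0 x (hP0 hx), ?_, ?_⟩
  · rw [continuous_iff_lower_upperSemicontinuous]
    constructor
    · intro x y hy
      rcases lt_or_ge y 0 with hy0 | hy0
      · exact Filter.Eventually.of_forall fun x' => hy0.trans_le (hf0 x')
      · let δ := (f x - y) / 4
        have hδ : 0 < δ := by
          have : 0 < f x - y := sub_pos.2 hy
          positivity
        obtain ⟨j, hj⟩ := hsmall δ hδ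
        have h1 : {x' | f x' ≤ y} ⊆ {x' | ∃ z ∈ (P (j + 1)).D, T.R (y + 2 * δ) x' z} := by
          intro x' hx'
          obtain ⟨s, hs, hs0, i, z, hz, hR⟩ := hlt x' (y + δ) (lt_of_le_of_lt hx' (by linarith))
          have h2 : ∃ w ∈ (P (j + 1)).D, T.R δ z w := by
            rcases le_total i (j + 1) with hij | hij
            · exact ⟨z, hDmono hij hz, T.refl z hδ⟩
            · obtain ⟨w, hw, hwR⟩ := (hP j).2.2 (hUanti hij ((P i).hDU hz))
              exact ⟨w, hw, T.mono hj.le hwR⟩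
          obtain ⟨w, hw, hwR⟩ := h2
          exact ⟨w, hw, T.mono (by linarith) (T.tri hR hwR)⟩
        have h3 : x ∉ closure {x' | f x' ≤ y} := by
          intro hx
          have h4 := T.cls (P (j + 1)).D (show y + 2 * δ < y + 3 * δ by linarith) (P (j + 1)).hD
            (closure_mono h1 hx)
          obtain ⟨w, hw, hwR⟩ := h4
          have h5 := hle x (y + 3 * δ) (j + 1) w hw (by linarith) hwR
          have h6 : δ = (f x - y) / 4 := rfl
          linarith
        have h7 := isClosed_closure.isOpen_compl.mem_nhds h3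
        filter_upwards [h7] with x' hx'
        by_contra hcon
        exact hx' (subset_closure (not_lt.1 hcon))
    · intro x y hy
      obtain ⟨s, hs, hs0, i, z, hz, hR⟩ := hlt x y hy
      obtain ⟨j, hj⟩ := hsmall ((y - s) / 2) (by linarith)
      have hz' : z ∈ (P (max i j + 1)).U :=
        (P _).hDU (hDmono ((le_max_left i j).trans (Nat.le_succ _)) hz)
      have h1 := (T.opn (r := s) (P (max i j + 1)).U hs0 (P _).hU).mem_nhds
        (show x ∈ {x | ∃ y ∈ (P (max i j + 1)).U, T.R s x y} from ⟨z, hz', hR⟩)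
      filter_upwards [h1] with x' hx'
      obtain ⟨w, hw, hwR⟩ := hx'
      obtain ⟨w', hw', hwR'⟩ := (hP _).2.2 hw
      have h2 : ((1 : ℝ) / 2) ^ (max i j) ≤ (1 / 2) ^ j :=
        pow_le_pow_of_le_one (by norm_num) (by norm_num) (le_max_right _ _)
      have h3 : (0 : ℝ) < (1 / 2) ^ (max i j) := by positivity
      have h4 := hle x' _ _ w' hw' (by positivity) (T.tri hwR hwR')
      linarith
  · intro r x y hr hR
    refine le_of_forall_gt_imp_ge_of_dense fun t ht => ?_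
    obtain ⟨s, hs, hs0, i, z, hz, hzR⟩ := hlt y (t - r) (by linarith)
    exact (hle x _ i z hz (by linarith) (T.tri hR hzR)).trans (by linarith)
  · intro r x hr
    obtain ⟨s, hs, hs0, i, z, hz, hR⟩ := hlt x r hr
    exact ⟨z, hPU (hUanti (Nat.zero_le i) ((P i).hDU hz)), hzero i z hz, T.mono hs.le hR⟩

end Pool.Agent.Run7.h690.CL.Top
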