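import Pool.Agent.Run7.h690.CL.Syn
import Pool.Agent.Run7.h690.CL.Top

set_option autoImplicit false

/-!
# The space of types and the metric on types
-/

namespace Pool.Agent.Run7.h690.CL

open Set Topology

/-- the space of types, as the closure of the set of the types of the tuples of `M` -/
abbrev TS (L : Sig) {M : Type} [MetricSpace M] [Str L M] (A : Set M) (n : ℕ) : Type :=
  closure (range fun x : Fin n → M => ev L A x)

variable {L : Sig} {M : Type} [MetricSpace M] [Str L M] {A : Set M} {n : ℕ}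

theorem ev_mem (A : Set M) (x : Fin n → M) (φ : Fm L A n) : ev L A x φ ∈ Icc (0 : ℝ) 1 :=
  Fm.val_mem L _ φ x

instance tsCompact (L : Sig) {M : Type} [MetricSpace M] [Str L M] (A : Set M) (n : ℕ) :
    CompactSpace (TS L A n) := by
  refine isCompact_iff_compactSpace.1 (IsCompact.of_isClosed_subset
    (isCompact_univ_pi fun _ : Fm L A n => isCompact_Icc (a := (0 : ℝ)) (b := 1))
    isClosed_closure (closure_minimal ?_ (isClosed_set_pi fun _ _ => isClosed_Icc)))
  rintro _ ⟨x, rfl⟩ φ _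
  exact ev_mem A x φ

/-- the type of a tuple of `M` -/
noncomputable def pt (L : Sig) {M : Type} [MetricSpace M] [Str L M] (A : Set M) {n : ℕ}
    (x : Fin n → M) : TS L A n :=
  ⟨ev L A x, subset_closure ⟨x, rfl⟩⟩

theorem pt_dense : Dense (range (pt L A : (Fin n → M) → TS L A n)) := by
  rw [Subtype.dense_iff]
  intro z hz
  refine closure_mono ?_ hz
  rintro _ ⟨x, rfl⟩
  exact ⟨pt L A x, ⟨x, rfl⟩, rfl⟩

theorem TS.continuous_val (φ : Fm L A n) : Continuous fun z : TS L A n => z.1 φ :=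
  (continuous_apply φ).comp continuous_subtype_val

theorem TS.mem (z : TS L A n) (φ : Fm L A n) : z.1 φ ∈ Icc (0 : ℝ) 1 := by
  have h : IsClosed {z : TS L A n | z.1 φ ∈ Icc (0 : ℝ) 1} :=
    isClosed_Icc.preimage (TS.continuous_val φ)
  have h2 := closure_minimal (s := range (pt L A)) (by
    rintro _ ⟨x, rfl⟩
    exact ev_mem A x φ) h
  exact h2 (pt_dense z)

theorem TS.con {k : ℕ} (z : TS L A n) (u : Con k) (φs : Fin k → Fm L A n) :
    z.1 (.con u φs) = u.u fun j => z.1 (φs j) := by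
  have h : IsClosed {z : TS L A n | z.1 (.con u φs) = u.u fun j => z.1 (φs j)} :=
    isClosed_eq (TS.continuous_val _)
      (u.cont.comp (continuous_pi fun j => TS.continuous_val (φs j)))
  have h2 := closure_minimal (s := range (pt L A)) (by
    rintro _ ⟨x, rfl⟩
    rfl) h
  exact h2 (pt_dense z)

/-- the connective of a box -/
noncomputable def boxCon {k : ℕ} (r d : Fin k → ℝ) : Con k where
  u x := min 1 (∑ j, |x j - r j| * |d j|)
  cont := continuous_const.min (continuous_finsetSum _ fun j _ =>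
    (((continuous_apply j).sub continuous_const).abs.mul continuous_const))
  mem x := ⟨le_min zero_le_one (Finset.sum_nonneg fun j _ => by positivity), min_le_left _ _⟩

theorem boxCon_self {k : ℕ} (r d : Fin k → ℝ) : (boxCon r d).u r = 0 := by
  simp [boxCon]

theorem boxCon_lt {k : ℕ} {r d x : Fin k → ℝ} (h : (boxCon r d).u x < 1) (j : Fin k) :
    |x j - r j| * |d j| < 1 := by
  have h1 : ∑ j, |x j - r j| * |d j| < 1 := by
    rcases min_lt_iff.1 h with h | h
    · exact absurd h (lt_irrefl _)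
    · exact h
  exact (Finset.single_le_sum (f := fun j => |x j - r j| * |d j|) (fun i _ => by positivity)
    (Finset.mem_univ j)).trans_lt h1

/-- basic neighbourhoods are given by formulas -/
theorem exists_nhd (U : Set (TS L A n)) (hU : IsOpen U) (p : TS L A n) (hp : p ∈ U) :
    ∃ θ : Fm L A n, p.1 θ = 0 ∧ ∀ z : TS L A n, z.1 θ < 1 → z ∈ U := by
  obtain ⟨O, hO, rfl⟩ := isOpen_induced_iff.1 hU
  obtain ⟨I, u, h1, h2⟩ := isOpen_pi_iff.1 hO p.1 hp
  have h3 : ∀ a : I, ∃ δ : ℝ, 0 < δ ∧ Metric.ball (p.1 a.1) δ ⊆ u a.1 := fun a =>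
    Metric.isOpen_iff.1 (h1 a.1 a.2).1 _ (h1 a.1 a.2).2
  choose δ hδ hδu using h3
  let e := I.equivFin
  refine ⟨.con (boxCon (fun j => p.1 (e.symm j).1) fun j => (δ (e.symm j))⁻¹)
    fun j => (e.symm j).1, ?_, fun z hz => ?_⟩
  · rw [TS.con]
    exact boxCon_self _ _
  · rw [TS.con] at hz
    refine h2 fun a ha => ?_
    have h4 := boxCon_lt hz (e ⟨a, ha⟩)
    simp only [Equiv.symm_apply_apply] at h4
    have h5 := hδ ⟨a, ha⟩
    refine hδu ⟨a, ha⟩ ?_
    rw [Metric.mem_ball, Real.dist_eq]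
    rw [abs_of_pos (inv_pos.2 h5), ← div_eq_mul_inv, div_lt_one h5] at h4
    exact h4

/-! ## The distance relation -/

/-- the closure of the graph of the distance -/
def Cs (L : Sig) {M : Type} [MetricSpace M] [Str L M] (A : Set M) (n : ℕ) :
    Set (TS L A n × TS L A n × ℝ) :=
  closure (range fun x : (Fin n → M) × (Fin n → M) => (pt L A x.1, pt L A x.2, dist x.1 x.2))

theorem pt_mem_Cs (x y : Fin n → M) : (pt L A x, pt L A y, dist x y) ∈ Cs L A n :=
  subset_closure ⟨(x, y), rfl⟩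

theorem dist_tup_le (L : Sig) {M : Type} [MetricSpace M] [Str L M] {n : ℕ} (x y : Fin n → M) :
    dist x y ≤ 1 :=
  (dist_pi_le_iff zero_le_one).2 fun _ => Str.diam (L := L) _ _

theorem Cs_mem {x : TS L A n × TS L A n × ℝ} (h : x ∈ Cs L A n) : x.2.2 ∈ Icc (0 : ℝ) 1 := by
  have h1 : IsClosed {x : TS L A n × TS L A n × ℝ | x.2.2 ∈ Icc (0 : ℝ) 1} :=
    isClosed_Icc.preimage continuous_snd.snd
  refine closure_minimal ?_ h1 h
  rintro _ ⟨y, rfl⟩
  exact ⟨dist_nonneg, dist_tup_le L _ _⟩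

theorem Cs_compact : IsCompact (Cs L A n) := by
  refine IsCompact.of_isClosed_subset (isCompact_univ.prod (isCompact_univ.prod
    (isCompact_Icc (a := (0 : ℝ)) (b := 1)))) isClosed_closure fun x hx => ?_
  exact ⟨mem_univ _, mem_univ _, Cs_mem hx⟩

theorem Cs_symm {x y : TS L A n} {s : ℝ} (h : (x, y, s) ∈ Cs L A n) : (y, x, s) ∈ Cs L A n := by
  have h1 : Continuous fun z : TS L A n × TS L A n × ℝ => (z.2.1, z.1, z.2.2) := by fun_prop
  have h2 := map_mem_closure h1 h (t := range fun x : (Fin n → M) × (Fin n → M) =>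
    (pt L A x.1, pt L A x.2, dist x.1 x.2)) (by
      rintro _ ⟨z, rfl⟩
      exact ⟨(z.2, z.1), by simp [dist_comm]⟩)
  exact h2

/-- the distance of `x` and `y` is less than `r` -/
def Rl (r : ℝ) (x y : TS L A n) : Prop := ∃ s, s < r ∧ (x, y, s) ∈ Cs L A n

/-- the distance of `x` and `y` is at most `r` -/
def Re (r : ℝ) (x y : TS L A n) : Prop := ∃ s, s ≤ r ∧ (x, y, s) ∈ Cs L A n

theorem Re_closed (D : Set (TS L A n)) (hD : IsClosed D) (r : ℝ) :
    IsClosed {x : TS L A n | ∃ y ∈ D, Re r x y} := by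
  have h1 : IsCompact (Cs L A n ∩ {z | z.2.1 ∈ D ∧ z.2.2 ≤ r}) :=
    Cs_compact.inter_right ((hD.preimage continuous_snd.fst).inter
      (isClosed_Iic.preimage continuous_snd.snd))
  have h2 := (h1.image (f := fun z : TS L A n × TS L A n × ℝ => z.1) continuous_fst).isClosed
  convert h2 using 1
  ext x
  constructor
  · rintro ⟨y, hy, s, hs, h⟩
    exact ⟨(x, y, s), ⟨h, hy, hs⟩, rfl⟩
  · rintro ⟨⟨x', y, s⟩, ⟨h, hy, hs⟩, rfl⟩
    exact ⟨y, hy, s, hs, h⟩

theorem Re_closed2 (r : ℝ) : IsClosed {z : TS L A n × TS L A n | Re r z.1 z.2} := by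
  have h1 : IsCompact (Cs L A n ∩ {z | z.2.2 ≤ r}) :=
    Cs_compact.inter_right (isClosed_Iic.preimage continuous_snd.snd)
  have h2 := (h1.image (f := fun z : TS L A n × TS L A n × ℝ => (z.1, z.2.1))
    (by fun_prop)).isClosed
  convert h2 using 1
  ext ⟨x, y⟩
  constructor
  · rintro ⟨s, hs, h⟩
    exact ⟨(x, y, s), ⟨h, hs⟩, rfl⟩
  · rintro ⟨⟨x', y', s⟩, ⟨h, hs⟩, he⟩
    simp only [Prod.mk.injEq] at he
    obtain ⟨rfl, rfl⟩ := he
    exact ⟨s, hs, h⟩

theorem Re_one (x y : TS L A n) : Re 1 x y := by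
  have h1 : Dense (range fun x : (Fin n → M) × (Fin n → M) => (pt L A x.1, pt L A x.2)) := by
    have := (pt_dense (L := L) (A := A) (n := n)).prod (pt_dense (L := L) (A := A) (n := n))
    refine this.mono ?_
    rintro ⟨_, _⟩ ⟨⟨x, rfl⟩, ⟨y, rfl⟩⟩
    exact ⟨(x, y), rfl⟩
  have h2 := closure_minimal (s := range fun x :
    (Fin n → M) × (Fin n → M) => (pt L A x.1, pt L A x.2)) (by
      rintro _ ⟨z, rfl⟩
      exact ⟨dist z.1 z.2, dist_tup_le L _ _, pt_mem_Cs _ _⟩)
    (Re_closed2 (L := L) (A := A) (n := n) 1)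
  exact h2 (h1 (x, y))

/-! ## The formula of a fattening -/

/-- `min 1 (max |t 0| (‖t 1, …‖ / r))` -/
noncomputable def fatCon (n : ℕ) (r : ℝ) : Con (n + 1) where
  u t := min 1 (max |t 0| (‖fun i : Fin n => t i.succ‖ * |r⁻¹|))
  cont := continuous_const.min ((continuous_apply 0).abs.max
    (((continuous_pi fun i : Fin n => continuous_apply i.succ).norm).mul continuous_const))
  mem t := ⟨le_min zero_le_one (le_max_of_le_left (abs_nonneg _)), min_le_left _ _⟩

theorem norm_dist_tup {X : Type} [MetricSpace X] {n : ℕ} (x y : Fin n → X) :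
    ‖fun i => dist (x i) (y i)‖ = dist x y := by
  refine le_antisymm ?_ ?_
  · rw [pi_norm_le_iff_of_nonneg dist_nonneg]
    intro i
    rw [Real.norm_eq_abs, abs_of_nonneg dist_nonneg]
    exact dist_le_pi_dist x y i
  · rw [dist_pi_le_iff (norm_nonneg _)]
    intro i
    have h := norm_le_pi_norm (fun i => dist (x i) (y i)) i
    rwa [Real.norm_eq_abs, abs_of_nonneg dist_nonneg] at h

/-- the formula `min 1 (max (θ y) (d(x, y) / r))` -/
noncomputable def chi (θ : Fm L A n) (r : ℝ) : Fm L A (n + n) :=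
  .con (fatCon n r) (Fin.cons (α := fun _ => Fm L A (n + n)) (θ.rename (Fin.natAdd n))
    fun i => .dst (.var (Fin.castAdd n i)) (.var (Fin.natAdd n i)))

theorem chi_val (θ : Fm L A n) {r : ℝ} (hr : 0 < r) (x y : Fin n → M) :
    (chi θ r).val (fun a : A => (a : M)) (Fin.append x y) =
      min 1 (max (ev L A y θ) (dist x y / r)) := by
  change min 1 (max |_| (‖_‖ * |r⁻¹|)) = _
  have h1 : (Fin.cons (α := fun _ => Fm L A (n + n)) (θ.rename (Fin.natAdd n))
    (fun i => .dst (.var (Fin.castAdd n i)) (.var (Fin.natAdd n i))) 0).val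
      (fun a : A => (a : M)) (Fin.append x y) = ev L A y θ := by
    rw [Fin.cons_zero, Fm.val_rename]
    simp only [Fin.append_right]
    rfl
  have h2 : (fun i : Fin n => (Fin.cons (α := fun _ => Fm L A (n + n)) (θ.rename (Fin.natAdd n))
    (fun i => .dst (.var (Fin.castAdd n i)) (.var (Fin.natAdd n i))) i.succ).val
      (fun a : A => (a : M)) (Fin.append x y)) = fun i => dist (x i) (y i) := by
    funext i
    rw [Fin.cons_succ]
    change dist (Fin.append x y (Fin.castAdd n i)) (Fin.append x y (Fin.natAdd n i)) = _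
    rw [Fin.append_left, Fin.append_right]
  beta_reduce
  rw [h1, h2, norm_dist_tup, abs_of_nonneg (ev_mem A y θ).1, abs_of_pos (inv_pos.2 hr),
    div_eq_mul_inv]

/-- the formula `inf_y min 1 (max (θ y) (d(x, y) / r))` -/
noncomputable def fat (θ : Fm L A n) (r : ℝ) : Fm L A n := Fm.infs n (chi θ r)

theorem fat_lt (θ : Fm L A n) {r : ℝ} (hr : 0 < r) (x : Fin n → M) {t : ℝ} (ht : t ≤ 1) :
    ev L A x (fat θ r) < t ↔ ∃ y : Fin n → M, ev L A y θ < t ∧ dist x y < t * r := by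
  change (Fm.infs n (chi θ r)).val (fun a : A => (a : M)) x < t ↔ _
  rw [Fm.infs_lt]
  refine exists_congr fun y => ?_
  rw [chi_val θ hr, min_lt_iff, max_lt_iff, div_lt_iff₀ hr]
  exact ⟨fun h => h.resolve_left (not_lt.2 ht), Or.inr⟩

theorem fat_of_Rl {θ : Fm L A n} {r : ℝ} {q p : TS L A n} (h : Rl r q p) (hp : p.1 θ = 0) :
    q.1 (fat θ r) < 1 := by
  obtain ⟨s, hs, hC⟩ := h
  have hs0 := (Cs_mem hC).1
  simp only at hs0
  have hr : 0 < r := hs0.trans_lt hs
  let c : ℝ := (1 + s / r) / 2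
  have h1 : s / r < 1 := (div_lt_one hr).2 hs
  have h2 : 0 ≤ s / r := div_nonneg hs0 hr.le
  have hc : c < 1 := by
    simp only [c]
    linarith
  have hc0 : 0 < c := by
    simp only [c]
    linarith
  have hcs : s < c * r := by
    have h3 : s / r < c := by
      simp only [c]
      linarith
    exact (div_lt_iff₀ hr).1 h3
  -- a neighbourhood
  have hO : IsOpen {z : TS L A n × TS L A n × ℝ | z.1.1 (fat θ r) > q.1 (fat θ r) - (1 - c) ∧
      z.2.1.1 θ < c ∧ z.2.2 < c * r} := by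
    refine (isOpen_lt continuous_const ((TS.continuous_val _).comp continuous_fst)).inter
      ((isOpen_lt ((TS.continuous_val _).comp continuous_snd.fst) continuous_const).inter
        (isOpen_lt continuous_snd.snd continuous_const))
  obtain ⟨z, hz, ⟨x, rfl⟩⟩ := mem_closure_iff.1 hC _ hO ⟨by
    change _ < _
    linarith, by
    change p.1 θ < c
    rw [hp]
    exact hc0, hcs⟩
  obtain ⟨h3, h4, h5⟩ := hz
  have h6 : ev L A x.1 (fat θ r) < c := (fat_lt θ hr x.1 hc.le).2 ⟨x.2, h4, h5⟩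
  have h7 : ev L A x.1 (fat θ r) > q.1 (fat θ r) - (1 - c) := h3
  linarith

theorem Rl_of_fat {θ : Fm L A n} {r : ℝ} (hr : 0 < r) {q : TS L A n} (h : q.1 (fat θ r) < 1) :
    ∃ p : TS L A n, p.1 θ < 1 ∧ Rl r q p := by
  obtain ⟨c, hc1, hc2⟩ := exists_between (max_lt h zero_lt_one)
  have hc3 := (le_max_left _ _).trans_lt hc1
  have hc0 : 0 < c := (le_max_right _ _).trans_lt hc1
  have h1 : IsCompact (Cs L A n ∩ {z | z.2.1.1 θ ≤ c ∧ z.2.2 ≤ c * r}) :=
    Cs_compact.inter_right ((isClosed_le ((TS.continuous_val _).comp continuous_snd.fst)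
      continuous_const).inter (isClosed_le continuous_snd.snd continuous_const))
  have h2 := (h1.image (f := fun z : TS L A n × TS L A n × ℝ => z.1) continuous_fst).isClosed
  have h3 : IsOpen {q' : TS L A n | q'.1 (fat θ r) < c} :=
    isOpen_lt (TS.continuous_val _) continuous_const
  have h4 := pt_dense (L := L) (A := A) (n := n) |>.open_subset_closure_inter h3
  have h5 := closure_minimal (s := {q' : TS L A n | q'.1 (fat θ r) < c} ∩
    range (pt L A)) (by
      rintro _ ⟨hx, ⟨x, rfl⟩⟩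
      obtain ⟨y, hy, hxy⟩ := (fat_lt θ hr x hc2.le).1 hx
      exact ⟨(pt L A x, pt L A y, dist x y), ⟨pt_mem_Cs x y, hy.le, hxy.le⟩, rfl⟩) h2
  obtain ⟨⟨q', p, s⟩, ⟨g1, g2, g3⟩, rfl⟩ := h5 (h4 hc3)
  refine ⟨p, lt_of_le_of_lt g2 hc2, s, lt_of_le_of_lt g3 ?_, g1⟩
  nlinarith

/-- **The fattening of an open set is open** -/
theorem opn {r : ℝ} (U : Set (TS L A n)) (hr : 0 < r) (hU : IsOpen U) :
    IsOpen {x : TS L A n | ∃ y ∈ U, Rl r x y} := by
  rw [isOpen_iff_mem_nhds]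
  rintro q ⟨p, hp, h⟩
  obtain ⟨θ, h1, h2⟩ := exists_nhd U hU p hp
  have h3 : IsOpen {q' : TS L A n | q'.1 (fat θ r) < 1} :=
    isOpen_lt (TS.continuous_val _) continuous_const
  refine Filter.mem_of_superset (h3.mem_nhds (fat_of_Rl h h1)) fun q' hq' => ?_
  obtain ⟨p', h4, h5⟩ := Rl_of_fat hr hq'
  exact ⟨p', h2 p' h4, h5⟩

/-- types near to a realized type are near to the types of near tuples -/
theorem near {r : ℝ} {x : Fin n → M} {p : TS L A n} (h : Rl r (pt L A x) p)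
    (U : Set (TS L A n)) (hU : IsOpen U) (hp : p ∈ U) :
    ∃ y : Fin n → M, pt L A y ∈ U ∧ dist x y < r := by
  obtain ⟨θ, h1, h2⟩ := exists_nhd U hU p hp
  have hr : 0 < r := by
    obtain ⟨s, hs, hC⟩ := h
    exact (Cs_mem hC).1.trans_lt hs
  have h3 : ev L A x (fat θ r) < 1 := fat_of_Rl h h1
  obtain ⟨y, h4, h5⟩ := (fat_lt θ hr x le_rfl).1 h3
  exact ⟨y, h2 _ h4, by rwa [one_mul] at h5⟩

theorem Rl_mono {r s : ℝ} {x y : TS L A n} (h : r ≤ s) (hR : Rl r x y) : Rl s x y := by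
  obtain ⟨t, ht, hC⟩ := hR
  exact ⟨t, ht.trans_le h, hC⟩

theorem Rl_symm {r : ℝ} {x y : TS L A n} (hR : Rl r x y) : Rl r y x := by
  obtain ⟨t, ht, hC⟩ := hR
  exact ⟨t, ht, Cs_symm hC⟩

theorem Rl_refl {r : ℝ} (x : TS L A n) (hr : 0 < r) : Rl r x x := by
  refine ⟨0, hr, ?_⟩
  have h1 : Continuous fun z : TS L A n => ((z, z, 0) : TS L A n × TS L A n × ℝ) := by fun_prop
  exact map_mem_closure (f := fun z : TS L A n => ((z, z, 0) : TS L A n × TS L A n × ℝ)) h1
    (pt_dense x) (by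
      rintro _ ⟨z, rfl⟩
      exact ⟨(z, z), by simp⟩)

theorem Rl_tri {r s : ℝ} {x y z : TS L A n} (h1 : Rl r x y) (h2 : Rl s y z) :
    Rl (r + s) x z := by
  obtain ⟨r0, hr0, hC1⟩ := h1
  obtain ⟨s0, hs0, hC2⟩ := h2
  obtain ⟨r1, hr1, hr1'⟩ := exists_between hr0
  obtain ⟨s1, hs1, hs1'⟩ := exists_between hs0
  have hr00 : 0 ≤ r0 := (Cs_mem hC1).1
  have hs00 : 0 ≤ s0 := (Cs_mem hC2).1
  have key : (x, z) ∈ closure {w : TS L A n × TS L A n | Re (r1 + s1) w.1 w.2} := by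
    rw [mem_closure_iff_nhds]
    intro t ht
    obtain ⟨U, hU, V, hV, hUV⟩ := mem_nhds_prod_iff.1 ht
    obtain ⟨U', hU', hU'o, hxU⟩ := mem_nhds_iff.1 hU
    obtain ⟨V', hV', hV'o, hzV⟩ := mem_nhds_iff.1 hV
    have g1 := opn (r := r1) U' (by linarith) hU'o
    have g2 := opn (r := s1) V' (by linarith) hV'o
    obtain ⟨w, ⟨⟨p, hp, hpw⟩, ⟨q, hq, hqw⟩⟩, ⟨m, rfl⟩⟩ := pt_dense.inter_open_nonempty _
      (g1.inter g2) ⟨y, ⟨x, hxU, r0, hr1, Cs_symm hC1⟩, ⟨z, hzV, s0, hs1, hC2⟩⟩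
    obtain ⟨a, ha, ha'⟩ := near hpw U' hU'o hp
    obtain ⟨b, hb, hb'⟩ := near hqw V' hV'o hq
    refine ⟨(pt L A a, pt L A b), hUV ⟨hU' ha, hV' hb⟩, dist a b, ?_, pt_mem_Cs a b⟩
    have := dist_triangle_left a b m
    linarith
  rw [(Re_closed2 (r1 + s1)).closure_eq] at key
  obtain ⟨t, ht, hC⟩ := key
  exact ⟨t, lt_of_le_of_lt ht (by linarith), hC⟩

/-- the metric on the space of types -/
def dstr (L : Sig) {M : Type} [MetricSpace M] [Str L M] (A : Set M) (n : ℕ) :
    Top.Dst (TS L A n) where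
  R := Rl
  mono h hR := Rl_mono h hR
  refl x hr := Rl_refl x hr
  tri h1 h2 := Rl_tri h1 h2
  all x y hr := by
    obtain ⟨s, hs, hC⟩ := Re_one x y
    exact ⟨s, hs.trans_lt hr, hC⟩
  opn U hr hU := opn U hr hU
  cls {r s} D h hD := by
    have h1 := closure_minimal
      (s := {x | ∃ y ∈ D, Rl r x y}) (by
        rintro x ⟨y, hy, t, ht, hC⟩
        exact ⟨y, hy, t, ht.le, hC⟩) (Re_closed (L := L) (A := A) D hD r)
    refine h1.trans ?_
    rintro x ⟨y, hy, t, ht, hC⟩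
    exact ⟨y, hy, t, ht.trans_lt h, hC⟩

end Pool.Agent.Run7.h690.CL
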